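import Mathlib

/-! Definitions and interface statements for the lower bound on dimensions of spaces of
multiple zeta values. Words are lists of booleans: `true` is the form `ds/(1-s)`,
`false` is the form `ds/s`. -/

namespace Pool.Agent.MP_807c24_nt.H28

open Finset

/-- words that are empty or end with `true` -/
def good : List Bool → Prop
  | [] => True
  | true :: w => good w
  | false :: w => w ≠ [] ∧ good w

/-- number of letters `true` -/
def dep (w : List Bool) : ℕ := w.count true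

/-- shuffle product, as a list of words -/
def sh : List Bool → List Bool → List (List Bool)
  | [], v => [v]
  | a :: u, [] => [a :: u]
  | a :: u, b :: v => (sh u (b :: v)).map (List.cons a) ++ (sh (a :: u) v).map (List.cons b)

noncomputable def op0 (c : ℕ → ℝ) (k : ℕ) : ℝ := c k / k

noncomputable def op1 (c : ℕ → ℝ) (k : ℕ) : ℝ := (∑ j ∈ range k, c j) / k

/-- Taylor coefficients of the multiple polylogarithm of a word -/
noncomputable def coef : List Bool → ℕ → ℝ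
  | [] => fun k => if k = 0 then 1 else 0
  | false :: w => op0 (coef w)
  | true :: w => op1 (coef w)

noncomputable def ser (c : ℕ → ℝ) (s : ℝ) : ℝ := ∑' k, c k * s ^ k

noncomputable def Li (w : List Bool) (s : ℝ) : ℝ := ser (coef w) s

/-- value at `1`, set to `0` for divergent words -/
noncomputable def zx : List Bool → ℝ
  | [] => 1
  | false :: w => ∑' k, coef (false :: w) k
  | true :: _ => 0

/-- the multiple zeta value of an index, as a nested series -/
noncomputable def mzv (r : ℕ) (s : Fin r → ℕ) : ℝ :=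
  ∑' m : {m : Fin r → ℕ // StrictAnti m ∧ ∀ i, 0 < m i}, ∏ i, (((m.1 i : ℕ) : ℝ) ^ (s i))⁻¹

/-- Link between words and nested series. -/
def MzvStmt : Prop :=
  (∀ w : List Bool, good w → w.head? ≠ some true →
    ∃ s : Fin (dep w) → ℕ, (∀ i, 1 ≤ s i) ∧ (∀ h : 0 < dep w, 2 ≤ s ⟨0, h⟩) ∧
      (∑ i, s i) = w.length ∧ zx w = mzv (dep w) s) ∧
  (∀ (r : ℕ) (s : Fin r → ℕ), (∀ i, 1 ≤ s i) → (∀ h : 0 < r, 2 ≤ s ⟨0, h⟩) →
    ∃ w : List Bool, good w ∧ w.head? ≠ some true ∧ dep w = r ∧ w.length = ∑ i, s i ∧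
      zx w = mzv r s)

/-- Pigeonhole principle for real linear forms. -/
def BoxStmt : Prop :=
  ∀ (ι κ : Type) [Fintype ι] [Fintype κ] (a : κ → ι → ℝ) (A : ℝ) (B L : ℕ), 0 < L →
    (∀ k, ∑ i, |a k i| ≤ A) → L ^ Fintype.card κ < (B + 1) ^ Fintype.card ι →
    ∃ c : ι → ℤ, c ≠ 0 ∧ (∀ i, |c i| ≤ B) ∧ ∀ k, |∑ i, (c i : ℝ) * a k i| ≤ 2 * A * B / L

/-- Dirichlet transference: a rational linear functional close to a multiple of the identity. -/
def TransStmt : Prop :=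
  ∀ (S : Set ℝ), S.Finite → ∃ C : ℝ, 0 < C ∧ ∀ η : ℝ, 0 < η → η ≤ 1 →
    ∃ (q : ℝ) (ψ : ℝ →ₗ[ℚ] ℝ), 1 ≤ q ∧
      q ≤ C / η ^ (Module.finrank ℚ (Submodule.span ℚ S)) ∧
      ∀ g ∈ S, (∃ z : ℤ, ψ g = z) ∧ |ψ g - q * g| ≤ η

/-- Zero estimate. -/
def ZeroStmt : Prop :=
  ∀ (U : Finset (List Bool)), [] ∈ U → (∀ b w, b :: w ∈ U → w ∈ U) → (∀ w ∈ U, good w) →
  ∀ (x : List Bool → ℝ) (I : ℕ → List Bool → ℝ), x [] ≠ 0 → (∀ w, x (true :: w) = 0) →
    (∀ M : ℕ, ((M : ℝ) + 1) * I M [] = x []) →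
    (∀ (M : ℕ) w, good (false :: w) → ((M : ℝ) + 1) * I M (false :: w) = x (false :: w) - I M w) →
    (∀ (M : ℕ) w, good w → ((M : ℝ) + 1) * I M (true :: w) = ∑ l ∈ range (M + 1), I l w) →
    ∀ (n : ℕ) (c : List Bool → ℕ → ℝ),
      (∀ t ∈ U, ∀ m < n + 4 * U.card,
        ∑ u ∈ U, ∑ i ∈ range (n + 1), c u i * ((sh u t).map (I (m + i))).sum = 0) →
      ∀ u ∈ U, ∀ i ≤ n, c u i = 0

end Pool.Agent.MP_807c24_nt.H28
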