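import Pool.Agent.MP_807c24_nt.H28.Count
import Pool.Agent.MP_807c24_nt.H28.Defs

/-! Formal Cauchy transforms: bilateral sequences with the action of polynomials. -/

namespace Pool.Agent.MP_807c24_nt.H28

open Polynomial Finset Matrix

noncomputable section

def shiftE : Module.End ℝ (ℤ → ℝ) where
  toFun f k := f (k - 1)
  map_add' _ _ := rfl
  map_smul' _ _ := rfl

def act (p : ℝ[X]) : Module.End ℝ (ℤ → ℝ) := aeval shiftE p

def thL : Module.End ℝ (ℤ → ℝ) where
  toFun f k := k * f k - (k - 1) * f (k - 1)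
  map_add' f g := by funext k; simp; ring
  map_smul' a f := by funext k; simp; ring

def one : ℤ → ℝ := fun k => if k = 0 then 1 else 0

def Van (e : ℤ) (f : ℤ → ℝ) : Prop := ∀ k, -e ≤ k → f k = 0

lemma act_add (p q : ℝ[X]) (f : ℤ → ℝ) : act (p + q) f = act p f + act q f := by simp [act]

lemma act_sub (p q : ℝ[X]) (f : ℤ → ℝ) : act (p - q) f = act p f - act q f := by simp [act]

lemma act_neg (p : ℝ[X]) (f : ℤ → ℝ) : act (-p) f = -act p f := by simp [act]

lemma act_zero (f : ℤ → ℝ) : act 0 f = 0 := by simp [act]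

lemma act_mul (p q : ℝ[X]) (f : ℤ → ℝ) : act (p * q) f = act p (act q f) := by simp [act]

lemma act_C (a : ℝ) (f : ℤ → ℝ) : act (C a) f = a • f := by simp [act]

lemma act_sum {ι : Type*} (s : Finset ι) (p : ι → ℝ[X]) (f : ℤ → ℝ) :
    act (∑ i ∈ s, p i) f = ∑ i ∈ s, act (p i) f := by simp [act, LinearMap.sum_apply]

lemma shift_pow (i : ℕ) (f : ℤ → ℝ) (k : ℤ) : (shiftE ^ i) f k = f (k - i) := by
  induction i generalizing k with
  | zero => simp
  | succ i ih =>
    rw [pow_succ', Module.End.mul_apply]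
    change (shiftE ^ i) f (k - 1) = _
    rw [ih]; congr 1; push_cast; ring

lemma act_mon (a : ℝ) (i : ℕ) (f : ℤ → ℝ) (k : ℤ) : act (C a * X ^ i) f k = a * f (k - i) := by
  simp [act, shift_pow]

lemma act_X (f : ℤ → ℝ) (k : ℤ) : act X f k = f (k - 1) := by
  simp [act]; rfl

lemma act_one_sub_X (f : ℤ → ℝ) (k : ℤ) : act (1 - X) f k = f k - f (k - 1) := by
  simp [act]; rfl

lemma thL_apply (f : ℤ → ℝ) (k : ℤ) : thL f k = k * f k - (k - 1) * f (k - 1) := rfl

lemma thL_act (p : ℝ[X]) (f : ℤ → ℝ) : thL (act p f) = act (th p) f + act p (thL f) := by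
  induction p using Polynomial.induction_on' with
  | add p q hp hq => rw [act_add, map_add, hp, hq, th_add, act_add, act_add]; abel
  | monomial i a =>
    have h : th (monomial i a) = C (a * i) * X ^ i - C (a * i) * X ^ (i + 1) := by
      rw [← C_mul_X_pow_eq_monomial]
      rcases i with _ | i
      · simp [th]
      · simp only [th, derivative_mul, derivative_C, zero_mul, zero_add, derivative_X_pow,
          Nat.add_sub_cancel, map_mul]
        ring
    funext k
    rw [h, act_sub, ← C_mul_X_pow_eq_monomial]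
    simp only [thL_apply, Pi.add_apply, Pi.sub_apply, act_mon]
    push_cast
    rw [show k - 1 - (i:ℤ) = k - i - 1 by ring, show k - ((i:ℤ) + 1) = k - i - 1 by ring]
    ring

lemma act_eq_sum (p : ℝ[X]) (D : ℕ) (h : p.natDegree ≤ D) (f : ℤ → ℝ) (k : ℤ) :
    act p f k = ∑ i ∈ range (D + 1), p.coeff i * f (k - i) := by
  conv_lhs => rw [as_sum_range' p (D + 1) (by omega), act_sum]
  rw [Finset.sum_apply]
  exact sum_congr rfl fun i _ => by rw [← C_mul_X_pow_eq_monomial, act_mon]

lemma Van.act {e : ℤ} {f : ℤ → ℝ} (hf : Van e f) (p : ℝ[X]) (D : ℕ) (h : p.natDegree ≤ D) :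
    Van (e - D) (act p f) := by
  intro k hk
  rw [act_eq_sum p D h]
  refine sum_eq_zero fun i hi => ?_
  rw [hf _ (by have := mem_range.1 hi; omega), mul_zero]

lemma Van.thL {e : ℤ} {f : ℤ → ℝ} (hf : Van e f) : Van (e - 1) (thL f) := by
  intro k hk
  rw [thL_apply, hf k (by omega), hf (k - 1) (by omega)]; simp

lemma act_one_nat (p : ℝ[X]) (k : ℕ) : act p one k = p.coeff k := by
  rw [act_eq_sum p (max p.natDegree k) (le_max_left _ _), Finset.sum_eq_single k]
  · simp [one]
  · intro i _ hi
    have : (k:ℤ) - i ≠ 0 := by omega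
    simp [one, this]
  · intro h
    exact absurd (mem_range.2 (by have := le_max_right p.natDegree k; omega)) h

lemma act_one_neg (p : ℝ[X]) (k : ℤ) (hk : k < 0) : act p one k = 0 := by
  rw [act_eq_sum p _ le_rfl]
  refine sum_eq_zero fun i _ => ?_
  have : k - i ≠ 0 := by omega
  simp [one, this]

lemma good_tail {b : Bool} {w : List Bool} (h : good (b :: w)) : good w := by
  cases b
  · exact h.2
  · exact h

lemma sh_nil (u : List Bool) : sh u [] = [u] := by cases u <;> simp [sh]

lemma sh_ne_nil (u v w : List Bool) (h : u ≠ [] ∨ v ≠ []) (hw : w ∈ sh u v) : w ≠ [] := by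
  rcases u with _ | ⟨a, u⟩ <;> rcases v with _ | ⟨b, v⟩
  · simp at h
  · simp [sh] at hw; simp [hw]
  · simp [sh] at hw; simp [hw]
  · simp only [sh, List.mem_append, List.mem_map] at hw
    rcases hw with ⟨_, _, rfl⟩ | ⟨_, _, rfl⟩ <;> simp

lemma good_cons {b : Bool} {w : List Bool} (h : good w) (h' : w ≠ []) : good (b :: w) := by
  cases b
  · exact ⟨h', h⟩
  · exact h

lemma good_sh (u v : List Bool) : good u → good v → ∀ w ∈ sh u v, good w := by
  induction u, v using sh.induct with
  | case1 v => intro _ hv w hw; simp [sh] at hw; exact hw ▸ hv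
  | case2 a u => intro hu _ w hw; simp [sh] at hw; exact hw ▸ hu
  | case3 a u b v ih1 ih2 =>
    intro hu hv w hw
    simp only [sh, List.mem_append, List.mem_map] at hw
    rcases hw with ⟨w, hw, rfl⟩ | ⟨w, hw, rfl⟩
    · exact good_cons (ih1 (good_tail hu) hv w hw) (sh_ne_nil _ _ _ (Or.inr (by simp)) hw)
    · exact good_cons (ih2 hu (good_tail hv) w hw) (sh_ne_nil _ _ _ (Or.inl (by simp)) hw)

/-- case distinction on the first letter -/
def tl {M : Type} [Zero M] (F : Bool → List Bool → M) : List Bool → M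
  | [] => 0
  | a :: v => F a v

lemma sum_ite_cons {M : Type} [AddCommMonoid M] (U : Finset (List Bool))
    (hU : ∀ b w, b :: w ∈ U → w ∈ U) (F : Bool → List Bool → M) (u : List Bool) (hu : u ∈ U) :
    ∑ b, ∑ v : U, (if u = b :: v.1 then F b v.1 else 0) = tl F u := by
  rcases u with _ | ⟨a, w⟩
  · simp [tl]
  · rw [Finset.sum_eq_single a, Finset.sum_eq_single ⟨w, hU a w hu⟩]
    · simp [tl]
    · intro v _ hv
      rw [if_neg]
      intro h
      exact hv (Subtype.ext (List.cons.inj h).2.symm)
    · simp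
    · intro b _ hb
      refine sum_eq_zero fun v _ => ?_
      rw [if_neg]
      intro h
      exact hb (List.cons.inj h).1.symm
    · simp

section
variable (x : List Bool → ℝ) (I : ℕ → List Bool → ℝ)

def G (w : List Bool) : ℤ → ℝ := fun k => if k < 0 then I (-k - 1).toNat w else 0

lemma G_neg (w : List Bool) (M : ℕ) : G I w (-(M:ℤ) - 1) = I M w := by
  have h : (-(-(M:ℤ) - 1) - 1).toNat = M := by omega
  simp only [G, h]
  rw [if_pos (by omega)]

lemma G_nonneg (w : List Bool) (k : ℤ) (hk : 0 ≤ k) : G I w k = 0 := by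
  simp [G, not_lt.2 hk]

lemma int_cases (k : ℤ) : (∃ M : ℕ, k = -(M:ℤ) - 1) ∨ k = 0 ∨ 1 ≤ k := by
  rcases lt_trichotomy k 0 with h | h | h
  · exact Or.inl ⟨(-k - 1).toNat, by omega⟩
  · exact Or.inr (Or.inl h)
  · exact Or.inr (Or.inr h)

variable (h0 : ∀ M : ℕ, ((M : ℝ) + 1) * I M [] = x [])
  (hx1 : ∀ w, x (true :: w) = 0)
  (hf : ∀ (M : ℕ) w, good (false :: w) →
    ((M : ℝ) + 1) * I M (false :: w) = x (false :: w) - I M w)
  (ht : ∀ (M : ℕ) w, good w → ((M : ℝ) + 1) * I M (true :: w) = ∑ l ∈ range (M + 1), I l w)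

include h0 in
lemma thL_G_nil : thL (G I []) = x [] • one := by
  funext k
  rw [thL_apply]
  rcases int_cases k with ⟨M, rfl⟩ | rfl | hk
  · rw [show -(M:ℤ) - 1 - 1 = -((M + 1 : ℕ):ℤ) - 1 by push_cast; ring, G_neg, G_neg]
    have h1 := h0 M
    have h2 := h0 (M + 1)
    have : -(M:ℤ) - 1 ≠ 0 := by omega
    simp only [one, Pi.smul_apply, this, if_false, smul_eq_mul, mul_zero]
    push_cast at *
    linear_combination h2 - h1
  · have h1 := h0 0
    have h2 := G_neg I [] 0
    simp only [Nat.cast_zero, neg_zero, zero_add, one_mul] at h1 h2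
    simp [one, zero_sub] at *
    rw [h2, h1]
  · have : k ≠ 0 := by omega
    simp [one, this, G_nonneg I [] k (by omega), G_nonneg I [] (k - 1) (by omega)]

include hx1 hf ht in
lemma thL_G_cons (b : Bool) (w : List Bool) (hw : good (b :: w)) :
    thL (G I (b :: w)) = act (om b) (G I w) + x (b :: w) • one := by
  funext k
  rw [thL_apply]
  cases b
  · simp only [om, Pi.add_apply, act_one_sub_X]
    rcases int_cases k with ⟨M, rfl⟩ | rfl | hk
    · rw [show -(M:ℤ) - 1 - 1 = -((M + 1 : ℕ):ℤ) - 1 by push_cast; ring]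
      simp only [G_neg]
      have h1 := hf M w hw
      have h2 := hf (M + 1) w hw
      have : -(M:ℤ) - 1 ≠ 0 := by omega
      simp only [one, Pi.smul_apply, this, if_false, smul_eq_mul, mul_zero]
      push_cast at *
      linear_combination h2 - h1
    · have h1 := hf 0 w hw
      have h2 := G_neg I w 0
      have h3 := G_neg I (false :: w) 0
      simp only [Nat.cast_zero, neg_zero, zero_add, one_mul] at h1 h2 h3
      rw [h2, h3, h1, G_nonneg I w 0 le_rfl]
      simp [one]; ring
    · have : k ≠ 0 := by omega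
      simp [one, this, G_nonneg I _ k (by omega), G_nonneg I _ (k - 1) (by omega)]
  · simp only [om, Pi.add_apply, act_X, hx1, zero_smul, Pi.zero_apply, add_zero]
    rcases int_cases k with ⟨M, rfl⟩ | rfl | hk
    · rw [show -(M:ℤ) - 1 - 1 = -((M + 1 : ℕ):ℤ) - 1 by push_cast; ring]
      simp only [G_neg]
      have h1 := ht M w hw
      have h2 := ht (M + 1) w hw
      rw [sum_range_succ] at h2
      push_cast at *
      linear_combination h2 - h1
    · have h1 := ht 0 w hw
      have h2 := G_neg I w 0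
      have h3 := G_neg I (true :: w) 0
      simp only [Nat.cast_zero, neg_zero, zero_add, one_mul, range_one, sum_singleton] at h1 h2 h3
      rw [h2, h3, h1]
      simp
    · simp [G_nonneg I _ k (by omega), G_nonneg I _ (k - 1) (by omega)]

def GS (u t : List Bool) : ℤ → ℝ := ((sh u t).map (G I)).sum

def xs (u t : List Bool) : ℝ := ((sh u t).map x).sum

include hx1 hf ht in
lemma thL_list (a : Bool) (L : List (List Bool)) (hL : ∀ w ∈ L, good (a :: w)) :
    thL ((L.map (List.cons a)).map (G I)).sum =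
      act (om a) (L.map (G I)).sum + ((L.map (List.cons a)).map x).sum • one := by
  induction L with
  | nil => simp
  | cons w L ih =>
    simp only [List.map_cons, List.sum_cons, map_add, add_smul]
    rw [ih (fun w hw => hL w (List.mem_cons_of_mem _ hw)),
      thL_G_cons x I hx1 hf ht a w (hL w List.mem_cons_self)]
    abel

include h0 hx1 hf ht in
lemma thL_GS (u t : List Bool) (hu : good u) (ht' : good t) :
    thL (GS I u t) = tl (fun a v => act (om a) (GS I v t)) u +
      tl (fun a v => act (om a) (GS I u v)) t + xs x u t • one := by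
  rcases u with _ | ⟨a, u⟩ <;> rcases t with _ | ⟨b, t⟩
  · simp [GS, xs, sh, tl, thL_G_nil x I h0]
  · simp [GS, xs, sh, tl, thL_G_cons x I hx1 hf ht b t ht']
  · simp [GS, xs, sh_nil, tl, thL_G_cons x I hx1 hf ht a u hu]
  · have hg := good_sh _ _ hu ht'
    simp only [sh, List.mem_append, List.mem_map] at hg
    simp only [GS, xs, sh, tl, List.map_append, List.sum_append, map_add, add_smul]
    rw [thL_list x I hx1 hf ht a _ (fun w hw => hg _ (Or.inl ⟨w, hw, rfl⟩)),
      thL_list x I hx1 hf ht b _ (fun w hw => hg _ (Or.inr ⟨w, hw, rfl⟩))]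
    abel

lemma GS_neg (u t : List Bool) (M : ℕ) : GS I u t (-(M:ℤ) - 1) = ((sh u t).map (I M)).sum := by
  simp only [GS]
  induction sh u t with
  | nil => simp
  | cons w L ih => simp [ih, G_neg]

lemma GS_nonneg (u t : List Bool) (k : ℤ) (hk : 0 ≤ k) : GS I u t k = 0 := by
  simp only [GS]
  induction sh u t with
  | nil => simp
  | cons w L ih => simp [ih, G_nonneg I w k hk]

end

end

end Pool.Agent.MP_807c24_nt.H28
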