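import Pool.Agent.MP_807c24_nt.H28.Zero
import Pool.Agent.MP_807c24_nt.H47.Li
import Pool.Agent.MP_807c24_nt.H84.Box
import Pool.Agent.MP_807c24_nt.H89.Small

/-! The main inequality. -/

namespace Pool.Agent.MP_807c24_nt.H28

open Finset

lemma lcm_bound (a : ℝ) (ha : 16 < a) :
    ∃ C : ℝ, 0 < C ∧ ∀ m : ℕ, (Nat.lcmUpto (2 * m) : ℝ) ≤ C * a ^ m := by
  have hε : 0 < (Real.log a - Real.log 16) / 4 := by
    have := Real.log_lt_log (by norm_num) ha
    linarith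
  set ε := (Real.log a - Real.log 16) / 4 with hεd
  refine ⟨Real.exp (8 * (4 / ε) ^ 3), Real.exp_pos _, fun m => ?_⟩
  rcases Nat.eq_zero_or_pos m with rfl | hm
  · simp [Nat.lcmUpto]; positivity
  have hx : (1:ℝ) ≤ ((2 * m : ℕ) : ℝ) := by exact_mod_cast (by omega : 1 ≤ 2 * m)
  have h1 := Chebyshev.psi_le hx
  rw [Chebyshev.psi_eq_log_lcmUpto] at h1
  set x : ℝ := ((2 * m : ℕ) : ℝ) with hxd
  set y := Real.sqrt (Real.sqrt x) with hy
  have hy0 : 0 < y := by positivity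
  have hy2 : y ^ 2 = Real.sqrt x := Real.sq_sqrt (Real.sqrt_nonneg _)
  have hy4 : y ^ 4 = x := by
    rw [show y ^ 4 = (y ^ 2) ^ 2 by ring, hy2, Real.sq_sqrt (by linarith)]
  have hlog : Real.log x ≤ 4 * y := by
    rw [← hy4, Real.log_pow]
    have := Real.log_le_sub_one_of_pos hy0
    push_cast; linarith
  have h2 : 2 * Real.sqrt x * Real.log x ≤ 8 * y ^ 3 := by
    rw [← hy2]; nlinarith [sq_nonneg y]
  have h3 : 8 * y ^ 3 ≤ 2 * ε * x + 8 * (4 / ε) ^ 3 := by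
    rcases le_total y (4 / ε) with h | h
    · have : y ^ 3 ≤ (4 / ε) ^ 3 := pow_le_pow_left₀ hy0.le h 3
      have : 0 ≤ 2 * ε * x := by positivity
      linarith
    · rw [div_le_iff₀ hε] at h
      have : 0 ≤ (4 / ε) ^ 3 := by positivity
      have h5 : 4 * y ^ 3 ≤ y * ε * y ^ 3 := mul_le_mul_of_nonneg_right h (by positivity)
      rw [← hy4]; nlinarith
  have h16 : Real.log 16 = 2 * Real.log 4 := by
    rw [show (16:ℝ) = 4 ^ 2 by norm_num, Real.log_pow]; norm_num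
  have h4 : Real.log (Nat.lcmUpto (2 * m)) ≤ 8 * (4 / ε) ^ 3 + m * Real.log a := by
    have : x = 2 * m := by rw [hxd]; push_cast; ring
    have h6 : Real.log a = 4 * ε + 2 * Real.log 4 := by rw [hεd, h16]; ring
    rw [h6]; rw [this] at h1 h3 h2; nlinarith
  have hpos : (0:ℝ) < Nat.lcmUpto (2 * m) := by exact_mod_cast Nat.lcmUpto_pos _
  calc (Nat.lcmUpto (2 * m) : ℝ) = Real.exp (Real.log (Nat.lcmUpto (2 * m))) :=
        (Real.exp_log hpos).symm
    _ ≤ Real.exp (8 * (4 / ε) ^ 3 + m * Real.log a) := Real.exp_le_exp.2 h4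
    _ = _ := by
        rw [Real.exp_add, ← Real.log_pow, Real.exp_log (by positivity)]

def IsZ (y : ℝ) : Prop := ∃ z : ℤ, y = z

lemma IsZ.add {y z : ℝ} : IsZ y → IsZ z → IsZ (y + z) := by
  rintro ⟨a, rfl⟩ ⟨b, rfl⟩; exact ⟨a + b, by simp⟩

lemma IsZ.sub {y z : ℝ} : IsZ y → IsZ z → IsZ (y - z) := by
  rintro ⟨a, rfl⟩ ⟨b, rfl⟩; exact ⟨a - b, by simp⟩

lemma IsZ.mul {y z : ℝ} : IsZ y → IsZ z → IsZ (y * z) := by
  rintro ⟨a, rfl⟩ ⟨b, rfl⟩; exact ⟨a * b, by simp⟩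

lemma IsZ.nat (n : ℕ) : IsZ n := ⟨n, by simp⟩

lemma IsZ.pow (n k : ℕ) : IsZ ((n:ℝ) ^ k) := ⟨n ^ k, by simp⟩

lemma IsZ.sum {ι : Type*} (s : Finset ι) (f : ι → ℝ) (h : ∀ i ∈ s, IsZ (f i)) :
    IsZ (∑ i ∈ s, f i) :=
  Finset.sum_induction f IsZ (fun _ _ => IsZ.add) ⟨0, by simp⟩ h

lemma IsZ.eq_zero {y : ℝ} (h : IsZ y) (h1 : |y| < 1) : y = 0 := by
  obtain ⟨z, rfl⟩ := h
  have : |z| < 1 := by exact_mod_cast h1
  have : z = 0 := by rw [Int.abs_lt_one_iff] at this; exact this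
  simp [this]

lemma map_succ_mul (ψ : ℝ →ₗ[ℚ] ℝ) (M : ℕ) (y : ℝ) :
    ψ (((M:ℝ) + 1) * y) = ((M:ℝ) + 1) * ψ y := by
  have := map_nsmul ψ (M + 1) y
  simpa [nsmul_eq_mul] using this

lemma dep_tail (b : Bool) (w : List Bool) : dep w ≤ dep (b :: w) := by
  simp [dep, List.count_cons]

section
variable (ψ : ℝ →ₗ[ℚ] ℝ)

lemma rec_nil (M : ℕ) : ((M:ℝ) + 1) * ψ (Iw M []) = ψ (zx []) := by
  rw [← map_succ_mul, H47.liS.2.2.2.2.2.2.2.1]

lemma rec_false (M : ℕ) (w : List Bool) (h : good (false :: w)) :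
    ((M:ℝ) + 1) * ψ (Iw M (false :: w)) = ψ (zx (false :: w)) - ψ (Iw M w) := by
  rw [← map_succ_mul, H47.liS.2.2.2.2.2.2.2.2.1 M w h, map_sub]

lemma rec_true (M : ℕ) (w : List Bool) (h : good w) :
    ((M:ℝ) + 1) * ψ (Iw M (true :: w)) = ∑ l ∈ range (M + 1), ψ (Iw l w) := by
  rw [← map_succ_mul, H47.liS.2.2.2.2.2.2.2.2.2 M w h, map_sum]

variable (W R : ℕ)

lemma size_I (η : ℝ)
    (h : ∀ w, good w → w.head? ≠ some true → w.length ≤ W → dep w ≤ R → |ψ (zx w)| ≤ η)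
    (w : List Bool) : good w → w.length ≤ W → dep w ≤ R → ∀ M,
      |ψ (Iw M w)| ≤ (w.length + 1) * η := by
  have hη : 0 ≤ η := (abs_nonneg _).trans (h [] trivial (by simp) (by simp) (by simp [dep]))
  have key : ∀ (M : ℕ) (y E : ℝ), |((M:ℝ) + 1) * y| ≤ ((M:ℝ) + 1) * E → |y| ≤ E := by
    intro M y E hy
    rw [abs_mul, abs_of_pos (by positivity : (0:ℝ) < M + 1)] at hy
    exact le_of_mul_le_mul_left hy (by positivity)
  induction w with
  | nil =>
    intro _ _ _ M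
    apply key M
    rw [rec_nil]
    have := h [] trivial (by simp) (by simp) (by simp [dep])
    have hM : (0:ℝ) ≤ M := Nat.cast_nonneg _
    simp only [List.length_nil, Nat.cast_zero, zero_add, one_mul]
    nlinarith
  | cons b w ih =>
    intro hg hl hd M
    have ih' := ih (good_tail hg) (by simp at hl; omega) ((dep_tail b w).trans hd)
    have hM : (0:ℝ) ≤ M := Nat.cast_nonneg _
    have hw : (0:ℝ) ≤ w.length := Nat.cast_nonneg _
    apply key M
    cases b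
    · rw [rec_false ψ M w hg]
      have h1 := h _ hg (by simp) hl hd
      have h2 := ih' M
      refine (abs_sub _ _).trans ?_
      simp only [List.length_cons]
      push_cast
      nlinarith [mul_nonneg hM (mul_nonneg hw hη), mul_nonneg hM hη]
    · rw [rec_true ψ M w hg]
      refine (abs_sum_le_sum_abs _ _).trans ((sum_le_sum fun l _ => ih' l).trans ?_)
      simp only [sum_const, card_range, nsmul_eq_mul, List.length_cons]
      push_cast
      nlinarith [mul_nonneg hM hη]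

lemma int_I (L M0 : ℕ) (hL : ∀ M < M0, (M + 1) ∣ L)
    (h : ∀ w, good w → w.head? ≠ some true → w.length ≤ W → dep w ≤ R → IsZ (ψ (zx w)))
    (w : List Bool) : good w → w.length ≤ W → dep w ≤ R → ∀ M < M0,
      IsZ ((L:ℝ) ^ (w.length + 1) * ψ (Iw M w)) := by
  have key : ∀ M < M0, ∀ (y : ℝ) (e : ℕ), IsZ ((L:ℝ) ^ e * (((M:ℝ) + 1) * y)) →
      IsZ ((L:ℝ) ^ (e + 1) * y) := by
    intro M hM y e hy
    obtain ⟨c, hc⟩ := hL M hM
    have : (L:ℝ) ^ (e + 1) * y = c * ((L:ℝ) ^ e * (((M:ℝ) + 1) * y)) := by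
      rw [pow_succ]
      have : (L:ℝ) = (M + 1) * c := by exact_mod_cast hc
      nth_rewrite 2 [this]
      ring
    rw [this]
    exact (IsZ.nat c).mul hy
  induction w with
  | nil =>
    intro _ _ _ M hM
    apply key M hM
    rw [rec_nil]
    exact (IsZ.pow _ _).mul (h [] trivial (by simp) (by simp) (by simp [dep]))
  | cons b w ih =>
    intro hg hl hd M hM
    have ih' := ih (good_tail hg) (by simp at hl; omega) ((dep_tail b w).trans hd)
    apply key M hM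
    cases b
    · rw [rec_false ψ M w hg, mul_sub]
      exact ((IsZ.pow _ _).mul (h _ hg (by simp) hl hd)).sub (ih' M hM)
    · rw [rec_true ψ M w hg, Finset.mul_sum]
      exact IsZ.sum _ _ fun l hl => ih' l (by have := mem_range.1 hl; omega)

lemma map_J (U : Finset (List Bool)) (n m : ℕ) (c : List Bool → ℕ → ℤ) (t : List Bool) :
    ψ (∑ u ∈ U, ∑ i ∈ range (n + 1), (c u i : ℝ) * ((sh u t).map (Iw (m + i))).sum) =
    ∑ u ∈ U, ∑ i ∈ range (n + 1),
      (c u i : ℝ) * ((sh u t).map (fun w => ψ (Iw (m + i) w))).sum := by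
  simp only [map_sum]
  refine sum_congr rfl fun u _ => sum_congr rfl fun i _ => ?_
  rw [← zsmul_eq_mul, map_zsmul, zsmul_eq_mul, map_list_sum, List.map_map]
  rfl

end

lemma list_abs_le (L : List (List Bool)) (f : List Bool → ℝ) (E : ℝ) (h : ∀ w ∈ L, |f w| ≤ E) :
    |(L.map f).sum| ≤ L.length * E := by
  induction L with
  | nil => simp
  | cons w L ih =>
    simp only [List.map_cons, List.sum_cons, List.length_cons]
    have h1 := ih fun w hw => h w (List.mem_cons_of_mem _ hw)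
    have h2 := h w List.mem_cons_self
    refine (abs_add_le _ _).trans ?_
    push_cast; linarith

lemma list_isZ (L : List (List Bool)) (f : List Bool → ℝ) (D : ℝ) (h : ∀ w ∈ L, IsZ (D * f w)) :
    IsZ (D * (L.map f).sum) := by
  induction L with
  | nil => exact ⟨0, by simp⟩
  | cons w L ih =>
    simp only [List.map_cons, List.sum_cons, mul_add]
    exact (h w List.mem_cons_self).add (ih fun w hw => h w (List.mem_cons_of_mem _ hw))

/-- values at convergent words of bounded length and depth -/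
def vals (W R : ℕ) : Set ℝ :=
  {y | ∃ w, good w ∧ w.head? ≠ some true ∧ w.length ≤ W ∧ dep w ≤ R ∧ y = zx w}

lemma vals_finite (W R : ℕ) : (vals W R).Finite :=
  ((List.finite_length_le Bool W).image zx).subset (by
    rintro y ⟨w, -, -, h, -, rfl⟩
    exact ⟨w, h, rfl⟩)

lemma tends (C θ : ℝ) (h0 : 0 ≤ θ) (h1 : θ < 1) :
    Filter.Tendsto (fun n : ℕ => C * (((n:ℝ) + 1) * θ ^ n)) Filter.atTop (nhds 0) := by
  have h2 := tendsto_self_mul_const_pow_of_lt_one h0 h1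
  have h3 := tendsto_pow_atTop_nhds_zero_of_lt_one h0 h1
  have h4 := (h2.add h3).const_mul C
  simp only [add_zero, mul_zero] at h4
  exact h4.congr fun n => by ring

theorem core_real (U : Finset (List Bool)) (hnil : [] ∈ U) (hsuf : ∀ b w, b :: w ∈ U → w ∈ U)
    (K r : ℕ) (hU : ∀ w ∈ U, good w ∧ w.length ≤ K ∧ dep w ≤ r) (b lam : ℕ)
    (h : (r + 2) * lam ^ 2 ≤ b * U.card) (a : ℝ) (ha : 16 < a) :
    (2:ℝ) ^ lam ≤ (2 ^ (b + 1) * a ^ (2 * K + 1)) ^
      (Module.finrank ℚ (Submodule.span ℚ (vals (2 * K) (2 * r))) + 1) := by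
  by_contra hcon
  push Not at hcon
  obtain ⟨C1, hC1, hT⟩ := H84.trans _ (vals_finite (2 * K) (2 * r))
  obtain ⟨C2, hC2, hS⟩ := H89.small H84.box H47.serS H47.liS U r
    (fun w hw => ⟨(hU w hw).1, (hU w hw).2.2⟩)
  obtain ⟨C3, hC3, hL⟩ := lcm_bound a ha
  generalize Module.finrank ℚ (Submodule.span ℚ (vals (2 * K) (2 * r))) = d at hcon hT
  set ρ : ℝ := 2 ^ (b + 1) * a ^ (2 * K + 1) with hρ
  have ha0 : 0 < a := by linarith
  have hρ1 : 1 < ρ := by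
    have h1 : (1:ℝ) < 2 ^ (b + 1) := one_lt_pow₀ (by norm_num) (by omega)
    have h2 : (1:ℝ) ≤ a ^ (2 * K + 1) := one_le_pow₀ (by linarith)
    nlinarith
  set N := U.card with hN
  set C4 : ℝ := (C3 * a ^ (2 * N)) ^ (2 * K + 1) with hC4
  have hθ : ρ ^ (d + 1) / 2 ^ lam < 1 := by rw [div_lt_one (by positivity)]; exact hcon
  have hlim := (tends (C4 * C1 * C2) _ (by positivity) hθ).add
    (tends (C4 * N * 2 ^ (2 * K) * (2 * K + 1)) (1 / 2) (by norm_num) (by norm_num))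
  rw [add_zero] at hlim
  obtain ⟨n, hn, hn1⟩ := ((hlim.eventually (gt_mem_nhds zero_lt_one)).and
    (Filter.eventually_ge_atTop 1)).exists
  have hρn : 1 < ρ ^ n := one_lt_pow₀ hρ1 (by omega)
  have hη0 : 0 < (ρ ^ n)⁻¹ := by positivity
  have hη1 : (ρ ^ n)⁻¹ < 1 := inv_lt_one_of_one_lt₀ hρn
  obtain ⟨q, ψ, hq1, hq2, hψ⟩ := hT _ hη0 hη1.le
  have hNpos : 0 < N := card_pos.2 ⟨_, hnil⟩
  obtain ⟨c, ⟨u0, hu0, i0, hi0, hc0⟩, hcB, hJ⟩ := hS n (2 ^ (b * n)) (lam * n) (by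
    calc 2 ^ ((r + 2) * (lam * n) ^ 2) ≤ 2 ^ (b * n * (N * (n + 1))) := by
          apply Nat.pow_le_pow_right (by norm_num)
          calc (r + 2) * (lam * n) ^ 2 = ((r + 2) * lam ^ 2) * n ^ 2 := by ring
            _ ≤ (b * N) * n ^ 2 := Nat.mul_le_mul_right _ h
            _ ≤ b * n * (N * (n + 1)) := by nlinarith [Nat.zero_le (b * n * N)]
      _ = (2 ^ (b * n)) ^ (N * (n + 1)) := by rw [← pow_mul]
      _ < _ := Nat.pow_lt_pow_left (Nat.lt_succ_self _) (by positivity))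
  set χ : ℝ →ₗ[ℚ] ℝ := ψ - LinearMap.mulLeft ℚ q with hχ
  have hχa : ∀ y, χ y = ψ y - q * y := fun y => rfl
  set L := Nat.lcmUpto (2 * (n + 2 * N)) with hLd
  have hdvd : ∀ M < 2 * (n + 2 * N), (M + 1) ∣ L := fun M hM =>
    Finset.dvd_lcm (f := id) (mem_Icc.2 ⟨by omega, by omega⟩)
  have hsz := size_I χ (2 * K) (2 * r) _
    (fun w h1 h2 h3 h4 => (hψ _ ⟨w, h1, h2, h3, h4, rfl⟩).2)
  have hint := int_I ψ (2 * K) (2 * r) L _ hdvd
    (fun w h1 h2 h3 h4 => (hψ _ ⟨w, h1, h2, h3, h4, rfl⟩).1)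
  have hsh : ∀ u ∈ U, ∀ t ∈ U, ∀ w ∈ sh u t, good w ∧ w.length ≤ 2 * K ∧ dep w ≤ 2 * r := by
    intro u hu t ht w hw
    obtain ⟨h1, h2, h3⟩ := H47.liS.2.1 u t w (hU u hu).1 (hU t ht).1 hw
    have := hU u hu
    have := hU t ht
    exact ⟨h1, by omega, by omega⟩
  have hD : (L:ℝ) ^ (2 * K + 1) ≤ C4 * (a ^ (2 * K + 1)) ^ n := by
    calc (L:ℝ) ^ (2 * K + 1) ≤ (C3 * a ^ (n + 2 * N)) ^ (2 * K + 1) :=
          pow_le_pow_left₀ (Nat.cast_nonneg _) (hL _) _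
      _ = _ := by
        rw [hC4, ← pow_mul, mul_comm (2 * K + 1) n, pow_mul a n, ← mul_pow]; congr 1; ring
  refine hc0 (Int.cast_eq_zero (α := ℝ).1 (zeroS U hnil hsuf (fun w hw => (hU w hw).1)
    (fun w => ψ (zx w)) (fun M w => ψ (Iw M w)) ?_ (fun w => by simp [zx]) (rec_nil ψ)
    (rec_false ψ) (rec_true ψ) n (fun u i => c u i) ?_ u0 hu0 i0 hi0))
  · intro h0
    have := (hψ _ ⟨[], trivial, by simp, by simp, by simp [dep], rfl⟩).2
    rw [h0] at this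
    simp only [zx, mul_one, zero_sub, abs_neg] at this
    linarith [le_abs_self q]
  intro t ht m hm
  have hZ : IsZ ((L:ℝ) ^ (2 * K + 1) * ∑ u ∈ U, ∑ i ∈ range (n + 1),
      (c u i : ℝ) * ((sh u t).map (fun w => ψ (Iw (m + i) w))).sum) := by
    simp only [Finset.mul_sum]
    refine IsZ.sum _ _ fun u hu => IsZ.sum _ _ fun i hi => ?_
    rw [mul_left_comm]
    refine IsZ.mul ⟨_, rfl⟩ (list_isZ _ _ _ fun w hw => ?_)
    obtain ⟨h1, h2, h3⟩ := hsh u hu t ht w hw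
    have h4 := hint w h1 h2 h3 (m + i) (by have := mem_range.1 hi; omega)
    rw [show 2 * K + 1 = (2 * K - w.length) + (w.length + 1) by omega, pow_add, mul_assoc]
    exact (IsZ.pow _ _).mul h4
  have hL0 : (0:ℝ) < (L:ℝ) ^ (2 * K + 1) := by
    have : (0:ℝ) < L := by exact_mod_cast Nat.lcmUpto_pos _
    positivity
  refine (mul_eq_zero.1 (hZ.eq_zero ?_)).resolve_left hL0.ne'
  rw [← map_J]
  have hJ1 := hJ t ht m
  have hJ2 : |χ (∑ u ∈ U, ∑ i ∈ range (n + 1), (c u i : ℝ) * ((sh u t).map (Iw (m + i))).sum)| ≤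
      N * ((n + 1) * (2 ^ (b * n) * (2 ^ (2 * K) * ((2 * K + 1) * (ρ ^ n)⁻¹)))) := by
    rw [map_J]
    refine (abs_sum_le_sum_abs _ _).trans ?_
    rw [hN, ← nsmul_eq_mul, ← sum_const]
    refine sum_le_sum fun u hu => (abs_sum_le_sum_abs _ _).trans ?_
    rw [show ((n:ℝ) + 1) = ((range (n + 1)).card : ℕ) by simp, ← nsmul_eq_mul, ← sum_const]
    refine sum_le_sum fun i _ => ?_
    rw [abs_mul]
    refine mul_le_mul (by exact_mod_cast hcB u i) ?_ (abs_nonneg _) (by positivity)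
    refine (list_abs_le _ _ ((2 * K + 1) * (ρ ^ n)⁻¹) fun w hw => ?_).trans ?_
    · obtain ⟨h1, h2, h3⟩ := hsh u hu t ht w hw
      refine (hsz w h1 h2 h3 _).trans (mul_le_mul_of_nonneg_right ?_ hη0.le)
      have : (w.length : ℝ) ≤ 2 * K := by exact_mod_cast h2
      linarith
    · refine mul_le_mul_of_nonneg_right ?_ (by positivity)
      have h1 := H47.liS.2.2.1 u t
      have h2 : 2 ^ (u.length + t.length) ≤ 2 ^ (2 * K) :=
        Nat.pow_le_pow_right (by norm_num) (by have := hU u hu; have := hU t ht; omega)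
      exact_mod_cast h1.trans h2
  generalize (∑ u ∈ U, ∑ i ∈ range (n + 1), (c u i : ℝ) * ((sh u t).map (Iw (m + i))).sum) = J
    at hJ1 hJ2
  have h1 : |ψ J| ≤ q * |J| + |χ J| := by
    have : ψ J = q * J + χ J := by rw [hχa]; ring
    rw [this]
    refine (abs_add_le _ _).trans ?_
    rw [abs_mul, abs_of_pos (by linarith : 0 < q)]
  have h2 : q * |J| ≤ C1 / (ρ ^ n)⁻¹ ^ d * (C2 * (n + 1) * 2 ^ n * (2 ^ (b * n) : ℕ) / 2 ^ (lam * n)) :=
    mul_le_mul hq2 hJ1 (abs_nonneg _) (by positivity)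
  rw [abs_mul, abs_of_pos hL0]
  refine lt_of_le_of_lt (mul_le_mul hD (h1.trans (add_le_add h2 hJ2)) (abs_nonneg _)
    (by positivity)) (lt_of_eq_of_lt ?_ hn)
  have e1 : ρ ^ n = 2 ^ (b * n) * 2 ^ n * (a ^ (2 * K + 1)) ^ n := by
    rw [hρ, mul_pow, ← pow_mul, ← pow_add]; congr 2; ring
  have e2 : (ρ ^ (d + 1) / 2 ^ lam) ^ n = (ρ ^ n) ^ d * ρ ^ n / 2 ^ (lam * n) := by
    rw [div_pow, ← pow_mul, ← pow_mul, ← pow_mul, ← pow_add]; congr 2; ring
  rw [e2, one_div, inv_pow, inv_pow]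
  push_cast
  generalize (ρ ^ n) ^ d = Y
  rw [e1]
  field_simp

theorem core (U : Finset (List Bool)) (hnil : [] ∈ U) (hsuf : ∀ b w, b :: w ∈ U → w ∈ U)
    (K r : ℕ) (hU : ∀ w ∈ U, good w ∧ w.length ≤ K ∧ dep w ≤ r) (b lam : ℕ)
    (h : (r + 2) * lam ^ 2 ≤ b * U.card) :
    lam ≤ (b + 8 * K + 5) *
      (Module.finrank ℚ (Submodule.span ℚ (vals (2 * K) (2 * r))) + 1) := by
  have hc := core_real U hnil hsuf K r hU b lam h
  generalize Module.finrank ℚ (Submodule.span ℚ (vals (2 * K) (2 * r))) = d at hc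
  by_contra hcon
  push Not at hcon
  set E : ℕ := (2 * K + 1) * (d + 1) with hE
  have hE0 : E ≠ 0 := by positivity
  have hs : (1:ℝ) < (3 / 2 : ℝ) ^ ((E:ℝ)⁻¹) := Real.one_lt_rpow (by norm_num) (by positivity)
  have h1 := hc (16 * (3 / 2 : ℝ) ^ ((E:ℝ)⁻¹)) (by linarith)
  have h2 : (2 ^ (b + 1) * (16 * (3 / 2 : ℝ) ^ ((E:ℝ)⁻¹)) ^ (2 * K + 1)) ^ (d + 1) =
      2 ^ ((b + 8 * K + 5) * (d + 1)) * (3 / 2) := by
    rw [mul_pow, ← pow_mul, ← pow_mul, ← hE, mul_pow, Real.rpow_inv_natCast_pow (by norm_num) hE0,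
      show (16:ℝ) = 2 ^ 4 by norm_num, ← pow_mul, ← mul_assoc, ← pow_add, hE]
    congr 2; ring
  rw [h2] at h1
  have h3 : (2:ℝ) ^ ((b + 8 * K + 5) * (d + 1) + 1) ≤ 2 ^ lam :=
    pow_le_pow_right₀ (by norm_num) hcon
  rw [pow_succ] at h3
  have : (0:ℝ) < 2 ^ ((b + 8 * K + 5) * (d + 1)) := by positivity
  linarith

end Pool.Agent.MP_807c24_nt.H28
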