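import Pool.Agent.MP_807c24_nt.H28.Xi

/-! Counting argument: a low degree combination of the derived rows. -/

namespace Pool.Agent.MP_807c24_nt.H28

open Polynomial Finset Matrix

noncomputable section

lemma natDegree_om (b : Bool) : (om b).natDegree ≤ 1 := by
  cases b
  · simp only [om]; compute_degree
  · simp [om]

lemma natDegree_th (p : ℝ[X]) (n : ℕ) (h : p.natDegree ≤ n) : (th p).natDegree ≤ n + 1 := by
  rcases n with _ | n
  · rw [Nat.le_zero, natDegree_eq_zero] at h
    obtain ⟨a, rfl⟩ := h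
    simp [th_C]
  · have h1 : (derivative p).natDegree ≤ n :=
      (natDegree_derivative_le p).trans (by omega)
    have h2 : (X * (1 - X) : ℝ[X]).natDegree ≤ 2 := by compute_degree
    exact natDegree_mul_le.trans (by omega)

section
variable {ι : Type} [Fintype ι] (A : Bool → Matrix ι ι ℝ)

lemma natDegree_nxt (r : ι → ℝ[X]) (n : ℕ) (h : ∀ i, (r i).natDegree ≤ n) (j : ι) :
    (nxt A r j).natDegree ≤ n + 1 := by
  refine (natDegree_add_le _ _).trans (max_le (natDegree_th _ _ (h j)) ?_)
  refine natDegree_sum_le_of_forall_le _ _ fun b _ => natDegree_mul_le.trans ?_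
  have h1 := natDegree_om b
  have h2 : (∑ i, r i * C (A b i j)).natDegree ≤ n :=
    natDegree_sum_le_of_forall_le _ _ fun i _ => (natDegree_mul_C_le _ _).trans (h i)
  omega

lemma natDegree_iter (r : ι → ℝ[X]) (n : ℕ) (h : ∀ i, (r i).natDegree ≤ n) (k : ℕ) (j : ι) :
    (((nxt A)^[k] r) j).natDegree ≤ n + k := by
  induction k generalizing j with
  | zero => simpa using h j
  | succ k ih =>
    rw [Function.iterate_succ_apply']
    exact natDegree_nxt A _ _ ih j

lemma stab (r : ι → ℝ[X]) : ∃ μ ≤ Fintype.card ι,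
    LinearIndependent ℝ[X] (fun i : Fin μ => (nxt A)^[i] r) ∧
    ∀ y : ι → ℝ[X], (∀ i < μ, dot ((nxt A)^[i] r) y = 0) → dot ((nxt A)^[μ] r) y = 0 := by
  classical
  have hex : ∃ k, ¬ LinearIndependent ℝ[X] (fun i : Fin (k + 1) => (nxt A)^[i] r) := by
    refine ⟨Fintype.card ι, fun h => ?_⟩
    have := h.fintype_card_le_finrank
    simp at this
  have hind : LinearIndependent ℝ[X] (fun i : Fin (Nat.find hex) => (nxt A)^[i] r) := by
    rcases hk : Nat.find hex with _ | k
    · exact linearIndependent_empty_type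
    · have := Nat.find_min hex (m := k) (by omega)
      exact not_not.1 this
  refine ⟨Nat.find hex, ?_, hind, ?_⟩
  · have := hind.fintype_card_le_finrank
    simpa using this
  · intro y hy
    have hdep := Nat.find_spec hex
    generalize Nat.find hex = μ at *
    rw [Fintype.not_linearIndependent_iff] at hdep
    obtain ⟨g, hg, i0, hi0⟩ := hdep
    rw [Fin.sum_univ_castSucc] at hg
    have hl : g (Fin.last μ) ≠ 0 := by
      intro h0
      rw [h0, zero_smul, add_zero] at hg
      have h1 := Fintype.linearIndependent_iff.1 hind (fun i => g i.castSucc) (by simpa using hg)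
      refine hi0 ?_
      induction i0 using Fin.lastCases with
      | last => exact h0
      | cast i => exact h1 i
    have h2 : ∑ i : Fin μ, g i.castSucc * dot ((nxt A)^[i] r) y +
        g (Fin.last μ) * dot ((nxt A)^[μ] r) y = 0 := by
      have h3 : ∀ j, ∑ i : Fin μ, g i.castSucc * ((nxt A)^[i] r) j +
          g (Fin.last μ) * ((nxt A)^[μ] r) j = 0 := fun j => by
        simpa using congrFun hg j
      simp only [dot, Finset.mul_sum]
      rw [sum_comm, ← sum_add_distrib]
      refine sum_eq_zero fun j _ => ?_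
      have := congrArg (· * y j) (h3 j)
      simp only [add_mul, Finset.sum_mul, zero_mul] at this
      simpa only [mul_assoc] using this
    rw [sum_eq_zero (fun i _ => by rw [hy i i.2, mul_zero]), zero_add] at h2
    exact (mul_eq_zero.1 h2).resolve_left hl

end

/-- small left kernel of a polynomial matrix -/
lemma small_ker {J : Type} [Fintype J] (μ D e : ℕ) (v : J → Fin μ → ℝ[X])
    (hv : ∀ j i, (v j i).natDegree ≤ e) (h : Fintype.card J * (e + D + 1) < μ * (D + 1)) :
    ∃ B : Fin μ → ℝ[X], B ≠ 0 ∧ (∀ i, (B i).natDegree ≤ D) ∧ ∀ j, ∑ i, B i * v j i = 0 := by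
  classical
  let P : (Fin μ × Fin (D + 1) → ℝ) → Fin μ → ℝ[X] :=
    fun c i => ∑ k : Fin (D + 1), C (c (i, k)) * X ^ (k : ℕ)
  have hPdeg : ∀ c i, (P c i).natDegree ≤ D := fun c i =>
    natDegree_sum_le_of_forall_le _ _ fun k _ => (natDegree_C_mul_X_pow_le _ _).trans (by omega)
  let f : (Fin μ × Fin (D + 1) → ℝ) →ₗ[ℝ] (J × Fin (e + D + 1) → ℝ) :=
    { toFun := fun c q => (∑ i, P c i * v q.1 i).coeff q.2
      map_add' := fun c c' => by
        funext q
        simp [P, add_mul, sum_add_distrib]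
      map_smul' := fun a c => by
        funext q
        simp only [P, Pi.smul_apply, smul_eq_mul, RingHom.id_apply, map_mul, mul_assoc,
          ← Finset.mul_sum, coeff_C_mul] }
  have hker : LinearMap.ker f ≠ ⊥ := by
    apply LinearMap.ker_ne_bot_of_finrank_lt
    simpa using h
  obtain ⟨c, hc, hc0⟩ := Submodule.exists_mem_ne_zero_of_ne_bot hker
  refine ⟨P c, fun hP => hc0 ?_, hPdeg c, fun j => ?_⟩
  · funext q
    have h1 := congrArg (fun p => p.coeff q.2) (congrFun hP q.1)
    simp only [P, finsetSum_coeff, coeff_C_mul_X_pow, Pi.zero_apply, coeff_zero] at h1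
    rw [Finset.sum_eq_single q.2] at h1
    · simpa using h1
    · intro k _ hk
      rw [if_neg]
      exact fun h => hk (Fin.ext h.symm)
    · simp
  · ext m
    by_cases hm : m < e + D + 1
    · exact congrFun (LinearMap.mem_ker.1 hc) (j, ⟨m, hm⟩)
    · refine coeff_eq_zero_of_natDegree_lt ?_
      have : (∑ i, P c i * v j i).natDegree ≤ D + e :=
        natDegree_sum_le_of_forall_le _ _ fun i _ =>
          natDegree_mul_le.trans (add_le_add (hPdeg c i) (hv j i))
      omega

theorem rel {α β : Type} [Fintype α] [Fintype β] (A : Bool → Matrix (α ⊕ β) (α ⊕ β) ℝ)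
    (lev : α ⊕ β → ℕ) (hlev : ∀ b i j, A b i j ≠ 0 → lev j < lev i)
    (r : α ⊕ β → ℝ[X]) (n : ℕ) (hdeg : ∀ i, (r i).natDegree ≤ n)
    (hT : ∀ S : Submodule ℝ (α ⊕ β → ℝ), (∀ m, (fun i => (r i).coeff m) ∈ S) →
      (∀ l ∈ S, ∀ b, l ᵥ* A b ∈ S) → ∀ y : α ⊕ β → ℝ[X], (∀ l ∈ S, pr l y = 0) →
      ∀ t, y (Sum.inr t) = 0)
    (D : ℕ) (hD : Fintype.card α * (n + Fintype.card (α ⊕ β)) < Fintype.card β * (D + 1)) :
    ∃ μ ≤ Fintype.card (α ⊕ β), ∃ B : Fin μ → ℝ[X], (∀ i, (B i).natDegree ≤ D) ∧
      (∀ u, ∑ i : Fin μ, B i * ((nxt A)^[i] r) (Sum.inl u) = 0) ∧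
      ∃ t, ∑ i : Fin μ, B i * ((nxt A)^[i] r) (Sum.inr t) ≠ 0 := by
  classical
  obtain ⟨μ, hμ, hind, hlast⟩ := stab A r
  let N : Submodule ℝ[X] (α ⊕ β → ℝ[X]) :=
    { carrier := {y | ∀ i < μ, dot ((nxt A)^[i] r) y = 0}
      add_mem' := fun {y z} hy hz i hi => by
        have h1 := hy i hi
        have h2 := hz i hi
        simp only [dot, Pi.add_apply, mul_add, sum_add_distrib] at *
        rw [h1, h2, add_zero]
      zero_mem' := fun i _ => by simp [dot]
      smul_mem' := fun a y hy i hi => by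
        have h1 := hy i hi
        simp only [dot, Pi.smul_apply, smul_eq_mul] at *
        rw [← mul_zero a, ← h1, Finset.mul_sum]
        exact sum_congr rfl fun j _ => by ring }
  have hle : ∀ y ∈ N, ∀ i ≤ μ, dot ((nxt A)^[i] r) y = 0 := by
    intro y hy i hi
    rcases hi.lt_or_eq with h | rfl
    · exact hy i h
    · exact hlast y hy
  have hN : ∀ y ∈ N, dn A y ∈ N := by
    intro y hy i hi
    have h1 := th_dot A ((nxt A)^[i] r) y
    rw [hy i hi, th_zero, ← Function.iterate_succ_apply' (nxt A), hle y hy _ hi, zero_add] at h1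
    exact h1.symm
  obtain ⟨S, hS1, hS2, hS3⟩ := xi A lev hlev N hN r (fun y hy => hle y hy 0 (Nat.zero_le _))
  have hNT : ∀ y ∈ N, ∀ t, y (Sum.inr t) = 0 := fun y hy =>
    hT S hS1 hS2 y (fun l hl => hS3 l hl y hy)
  let col : α ⊕ β → Fin μ → ℝ[X] := fun c i => ((nxt A)^[i] r) c
  obtain ⟨J, hJ, hJmax⟩ := exists_maximal_linearIndepOn ℝ[X] (fun u : α => col (Sum.inl u))
  let w : J ⊕ β → Fin μ → ℝ[X] := Sum.elim (fun j => col (Sum.inl j)) (fun t => col (Sum.inr t))
  have hw : LinearIndependent ℝ[X] w := by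
    rw [Fintype.linearIndependent_iff]
    intro g hg
    let y : α ⊕ β → ℝ[X] :=
      Sum.elim (fun u => if h : u ∈ J then g (Sum.inl ⟨u, h⟩) else 0) (fun t => g (Sum.inr t))
    have hsum : ∀ F : α → ℝ[X], ∑ u, F u * y (Sum.inl u) = ∑ j : J, g (Sum.inl j) * F j := by
      intro F
      rw [← Fintype.sum_subtype_add_sum_subtype (· ∈ J)]
      rw [sum_eq_zero (s := univ) (f := fun i : {x // ¬ x ∈ J} => F i * y (Sum.inl i))
        (fun i _ => by simp [y, i.2]), add_zero]
      exact sum_congr rfl fun j _ => by simp [y, j.2, mul_comm]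
    have hy : y ∈ N := by
      intro i hi
      have h1 := congrFun hg ⟨i, hi⟩
      simp only [Fintype.sum_sum_type, w, Sum.elim_inl, Sum.elim_inr, Finset.sum_apply,
        Pi.smul_apply, smul_eq_mul, Pi.zero_apply, col] at h1
      simp only [dot, Fintype.sum_sum_type]
      rw [hsum (fun u => ((nxt A)^[i] r) (Sum.inl u)), ← h1]
      congr 1
      exact sum_congr rfl fun t _ => by simp [y, mul_comm]
    have hT0 : ∀ t, g (Sum.inr t) = 0 := hNT y hy
    have hJ0 := Fintype.linearIndependent_iff.1 hJ (fun j => g (Sum.inl j)) (by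
      simpa [Fintype.sum_sum_type, w, hT0] using hg)
    rintro (j | t)
    · exact hJ0 j
    · exact hT0 t
  have hcard : Fintype.card J + Fintype.card β ≤ μ := by
    have := hw.fintype_card_le_finrank
    simpa using this
  have hJα : Fintype.card J ≤ Fintype.card α := Fintype.card_subtype_le _
  obtain ⟨B, hB0, hBdeg, hBJ⟩ := small_ker μ D (n + Fintype.card (α ⊕ β))
    (fun j : J => col (Sum.inl j)) (fun j i => (natDegree_iter A r n hdeg i _).trans (by
      have := i.2; omega)) (by
      have h1 : Fintype.card J * (n + Fintype.card (α ⊕ β)) ≤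
          Fintype.card α * (n + Fintype.card (α ⊕ β)) := Nat.mul_le_mul_right _ hJα
      have h2 : (Fintype.card J + Fintype.card β) * (D + 1) ≤ μ * (D + 1) :=
        Nat.mul_le_mul_right _ hcard
      nlinarith)
  have hU : ∀ u, ∑ i : Fin μ, B i * ((nxt A)^[i] r) (Sum.inl u) = 0 := by
    intro u
    by_cases hu : u ∈ J
    · exact hBJ ⟨u, hu⟩
    obtain ⟨a, ha, hmem⟩ := hJmax u hu
    have hspan : ∀ z ∈ Submodule.span ℝ[X] ((fun u : α => col (Sum.inl u)) '' J),
        ∑ i, B i * z i = 0 := by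
      intro z hz
      induction hz using Submodule.span_induction with
      | mem z hz =>
        obtain ⟨j, hj, rfl⟩ := hz
        exact hBJ ⟨j, hj⟩
      | zero => simp
      | add z z' _ _ h1 h2 => simp [mul_add, sum_add_distrib, h1, h2]
      | smul a z _ h1 =>
        rw [← mul_zero a, ← h1, Finset.mul_sum]
        exact sum_congr rfl fun i _ => by simp; ring
    have h1 := hspan _ hmem
    apply mul_left_cancel₀ ha
    rw [mul_zero, ← h1, Finset.mul_sum]
    exact sum_congr rfl fun i _ => by simp [col]; ring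
  refine ⟨μ, hμ, B, hBdeg, hU, ?_⟩
  by_contra hcon
  push Not at hcon
  refine hB0 (funext (Fintype.linearIndependent_iff.1 hind B ?_))
  funext c
  rcases c with u | t
  · simpa using hU u
  · simpa using hcon t

end

end Pool.Agent.MP_807c24_nt.H28
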