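import Pool.Agent.MP_807c24_nt.H28.Core
import Pool.Agent.MP_807c24_nt.H17.Mzv

/-! Counting words and comparing weights. -/

namespace Pool.Agent.MP_807c24_nt.H28

open Finset

/-- good words of length at most `K` and depth at most `r` -/
def gw : ℕ → ℕ → Finset (List Bool)
  | 0, _ => {[]}
  | _ + 1, 0 => {[]}
  | K + 1, r + 1 => insert [] ((gw K r).image (List.cons true) ∪
      ((gw K (r + 1)).erase []).image (List.cons false))

lemma dep_pos (w : List Bool) (h : good w) (h' : w ≠ []) : 0 < dep w := by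
  induction w with
  | nil => exact absurd rfl h'
  | cons b w ih =>
    cases b
    · exact (ih h.2 h.1).trans_le (dep_tail _ _)
    · simp [dep]

lemma mem_gw (K r : ℕ) (w : List Bool) : w ∈ gw K r ↔ good w ∧ w.length ≤ K ∧ dep w ≤ r := by
  induction K generalizing r w with
  | zero =>
    simp only [gw, mem_singleton, Nat.le_zero, List.length_eq_zero_iff]
    constructor
    · rintro rfl; simp [good, dep]
    · exact fun h => h.2.1
  | succ K ih =>
    rcases r with _ | r
    · simp only [gw, mem_singleton]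
      constructor
      · rintro rfl; simp [good, dep]
      · rintro ⟨h1, -, h3⟩
        by_contra h
        have := dep_pos w h1 h
        omega
    · rcases w with _ | ⟨b, w⟩
      · simp [gw, good, dep]
      · cases b <;> simp [gw, ih, good, dep, and_assoc]

lemma card_gw_succ (K r : ℕ) : (gw (K + 1) (r + 1)).card = (gw K r).card + (gw K (r + 1)).card := by
  have hn : [] ∈ gw K (r + 1) := (mem_gw _ _ _).2 ⟨trivial, by simp, by simp [dep]⟩
  rw [gw, card_insert_of_notMem (by simp), card_union_of_disjoint (by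
    rw [disjoint_left]; simp only [mem_image]
    rintro _ ⟨a, -, rfl⟩ ⟨b, -, h⟩; simp at h),
    card_image_of_injective _ (List.cons_injective), card_image_of_injective _ (List.cons_injective),
    card_erase_of_mem hn]
  have := card_pos.2 ⟨_, hn⟩
  omega

lemma card_gw_full (K r : ℕ) (h : K ≤ r) : (gw K r).card = 2 ^ K := by
  induction K generalizing r with
  | zero => simp [gw]
  | succ K ih =>
    obtain ⟨r, rfl⟩ : ∃ s, r = s + 1 := ⟨r - 1, by omega⟩
    rw [card_gw_succ, ih r (by omega), ih (r + 1) (by omega)]; ring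

lemma choose_le_card_gw (K r : ℕ) : K.choose r ≤ (gw K r).card := by
  induction K generalizing r with
  | zero => rcases r with _ | r <;> simp [gw]
  | succ K ih =>
    rcases r with _ | r
    · simp [gw]
    · rw [card_gw_succ, Nat.choose_succ_succ]
      exact add_le_add (ih r) (ih (r + 1))

theorem core_gw (K r b lam : ℕ) (h : (r + 2) * lam ^ 2 ≤ b * (gw K r).card) :
    lam ≤ (b + 8 * K + 5) *
      (Module.finrank ℚ (Submodule.span ℚ (vals (2 * K) (2 * r))) + 1) :=
  core (gw K r) ((mem_gw _ _ _).2 ⟨trivial, by simp, by simp [dep]⟩)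
    (fun b w hw => by
      rw [mem_gw] at hw ⊢
      exact ⟨good_tail hw.1, by have := hw.2.1; simp at this; omega, (dep_tail b w).trans hw.2.2⟩)
    K r (fun w hw => (mem_gw _ _ _).1 hw) b lam h

/-- span of the values in weight exactly `k` and depth at most `R` -/
noncomputable def Zw (k R : ℕ) : Submodule ℚ ℝ :=
  Submodule.span ℚ {y | ∃ w, good w ∧ w.head? ≠ some true ∧ w.length = k ∧ dep w ≤ R ∧ y = zx w}

instance (k R : ℕ) : Module.Finite ℚ (Zw k R) :=
  Module.Finite.span_of_finite ℚ ((vals_finite k R).subset (by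
    rintro y ⟨w, h1, h2, h3, h4, h5⟩
    exact ⟨w, h1, h2, h3.le, h4, h5⟩))

lemma good_single (j : ℕ) : good (List.replicate j false ++ [true]) := by
  induction j with
  | zero => trivial
  | succ j ih => exact ⟨by simp, ih⟩

lemma Zw_mono (i k R : ℕ) (h : i + 2 ≤ k) :
    Module.finrank ℚ (Zw i R) ≤ Module.finrank ℚ (Zw k (R + 1)) := by
  obtain ⟨j, rfl⟩ : ∃ j, k = i + (j + 1 + 1) := ⟨k - i - 2, by omega⟩
  set v := List.replicate (j + 1) false ++ [true] with hv
  have hv1 : good v := good_single _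
  have hv2 : v.head? ≠ some true := by simp [hv, List.replicate_succ]
  have hv3 : v.length = j + 1 + 1 := by simp [hv]
  have hv4 : dep v = 1 := by simp [hv, dep, List.count_replicate]
  have hpos := H47.liS.2.2.2.2.2.1 v hv1 hv2
  have hmap : (Zw i R).map (LinearMap.mulRight ℚ (zx v)) ≤ Zw (i + (j + 1 + 1)) (R + 1) := by
    rw [Zw, Submodule.map_span, Submodule.span_le]
    rintro _ ⟨_, ⟨u, h1, h2, h3, h4, rfl⟩, rfl⟩
    obtain ⟨e1, e2⟩ := H47.liS.2.2.2.2.1 u v h1 hv1 h2 hv2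
    rw [LinearMap.mulRight_apply, e1]
    refine list_sum_mem fun y hy => ?_
    obtain ⟨w, hw, rfl⟩ := List.mem_map.1 hy
    obtain ⟨f1, f2, f3⟩ := H47.liS.2.1 u v w h1 hv1 hw
    exact Submodule.subset_span ⟨w, f1, e2 w hw, by omega, by omega, rfl⟩
  have hinj : Function.Injective (LinearMap.mulRight ℚ (zx v)) :=
    fun a b hab => mul_right_cancel₀ hpos.ne' hab
  rw [(Submodule.equivMapOfInjective _ hinj (Zw i R)).finrank_eq]
  exact Submodule.finrank_mono hmap

lemma finrank_sup_le (R D : ℕ) (W : ℕ) (h : ∀ i < W, Module.finrank ℚ (Zw i R) ≤ D) :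
    Module.finrank ℚ ((range W).sup (fun i => Zw i R) : Submodule ℚ ℝ) ≤ W * D := by
  induction W with
  | zero => rw [range_zero, sup_empty]; simp
  | succ W ih =>
    rw [range_add_one, sup_insert]
    refine (Submodule.finrank_add_le_finrank_add_finrank _ _).trans ?_
    have h1 := ih fun i hi => h i (by omega)
    have h2 := h W (by omega)
    nlinarith

lemma vals_le (W R k : ℕ) (h : W + 2 ≤ k) :
    Module.finrank ℚ (Submodule.span ℚ (vals W R)) + 1 ≤ k * Module.finrank ℚ (Zw k (R + 1)) := by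
  have h1 : Submodule.span ℚ (vals W R) ≤ (range (W + 1)).sup (fun i => Zw i R) := by
    rw [Submodule.span_le]
    rintro _ ⟨w, h1, h2, h3, h4, rfl⟩
    exact (le_sup (f := fun i => Zw i R) (mem_range.2 (Nat.lt_succ_of_le h3)))
      (Submodule.subset_span ⟨w, h1, h2, rfl, h4, rfl⟩)
  have h2 := (Submodule.finrank_mono h1).trans
    (finrank_sup_le R _ (W + 1) fun i hi => Zw_mono i k R (by omega))
  have h3 : 1 ≤ Module.finrank ℚ (Zw k (R + 1)) := by
    refine le_trans ?_ (Zw_mono 0 k R (by omega))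
    rw [Nat.one_le_iff_ne_zero, Ne, Submodule.finrank_eq_zero]
    intro h0
    have : zx [] ∈ Zw 0 R := Submodule.subset_span ⟨[], trivial, by simp, rfl, by simp [dep], rfl⟩
    rw [h0] at this
    simp [zx] at this
  nlinarith

/-- span of the nested series of weight `k` and depth at most `R` -/
lemma Zw_eq (k R : ℕ) : Zw k R = Submodule.span ℚ {x : ℝ | ∃ r ≤ R, ∃ s : Fin r → ℕ,
    (∀ i, 1 ≤ s i) ∧ (∀ h : 0 < r, 2 ≤ s ⟨0, h⟩) ∧ (∑ i, s i) = k ∧ x = mzv r s} := by
  unfold Zw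
  congr 1
  ext y
  constructor
  · rintro ⟨w, h1, h2, h3, h4, rfl⟩
    obtain ⟨s, e1, e2, e3, e4⟩ := H17.mzvlink.1 w h1 h2
    exact ⟨_, h4, s, e1, e2, e3.trans h3, e4⟩
  · rintro ⟨r, hr, s, e1, e2, e3, rfl⟩
    obtain ⟨w, h1, h2, h3, h4, h5⟩ := H17.mzvlink.2 r s e1 e2
    exact ⟨w, h1, h2, h4.trans e3, h3 ▸ hr, h5.symm⟩

theorem main_nat (k : ℕ) (hk : 2 ≤ k) :
    2 ^ k ≤ (5 * k ^ 2 * Module.finrank ℚ (Zw k k)) ^ 4 := by
  obtain ⟨K, hK1, hK2⟩ : ∃ K, 2 * K + 2 ≤ k ∧ k ≤ 2 * K + 3 := ⟨(k - 2) / 2, by omega, by omega⟩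
  have h1 := core_gw K K (8 * (K + 2)) (Nat.sqrt (2 ^ (K + 3))) (by
    rw [card_gw_full K K le_rfl]
    have := Nat.sqrt_le' (2 ^ (K + 3))
    calc (K + 2) * Nat.sqrt (2 ^ (K + 3)) ^ 2 ≤ (K + 2) * 2 ^ (K + 3) := Nat.mul_le_mul_left _ this
      _ = _ := by ring)
  have h2 := vals_le (2 * K) (2 * K) k hK1
  have h3 : Module.finrank ℚ (Zw k (2 * K + 1)) ≤ Module.finrank ℚ (Zw k k) :=
    Submodule.finrank_mono (Submodule.span_mono (by
      rintro _ ⟨w, h1, h2, h3, h4, h5⟩
      exact ⟨w, h1, h2, h3, by omega, h5⟩))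
  have h4 := Nat.lt_succ_sqrt' (2 ^ (K + 3))
  generalize Module.finrank ℚ (Zw k k) = D at *
  generalize Module.finrank ℚ (Zw k (2 * K + 1)) = D' at *
  generalize Module.finrank ℚ (Submodule.span ℚ (vals (2 * K) (2 * K))) = d at *
  generalize Nat.sqrt (2 ^ (K + 3)) = lam at *
  have hD : 1 ≤ D := by
    rcases Nat.eq_zero_or_pos D' with rfl | h
    · omega
    · omega
  rcases le_or_gt k 13 with hk13 | hk13
  · calc 2 ^ k ≤ (5 * k ^ 2 * 1) ^ 4 := by interval_cases k <;> norm_num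
      _ ≤ _ := by gcongr
  · have h5 : lam ≤ (8 * k + 5) * (k * D) := by
      calc lam ≤ (8 * (K + 2) + 8 * K + 5) * (d + 1) := h1
        _ ≤ (8 * k + 5) * (k * D) := Nat.mul_le_mul (by omega) (h2.trans (by gcongr))
    have h6 : 5 * (lam + 1) ≤ 42 * (k ^ 2 * D) := by
      have : 13 * (k * D) ≤ k * (k * D) := Nat.mul_le_mul_right _ hk13.le
      have : 13 ≤ k * D := by nlinarith
      nlinarith
    have h7 : 8 * 2 ^ k ≤ (lam + 1) ^ 4 := by
      calc 8 * 2 ^ k ≤ 8 * 2 ^ (2 * K + 3) := by gcongr; norm_num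
        _ = (2 ^ (K + 3)) ^ 2 := by ring
        _ ≤ ((lam + 1) ^ 2) ^ 2 := by gcongr
        _ = _ := by ring
    have h8 : (5 * (lam + 1)) ^ 4 ≤ (42 * (k ^ 2 * D)) ^ 4 := by gcongr
    have h9 : (5 * k ^ 2 * D) ^ 4 = 625 * (k ^ 2 * D) ^ 4 := by ring
    rw [mul_pow, mul_pow 42] at h8
    rw [h9]
    omega

theorem main_real (k : ℕ) (hk : 2 ≤ k) :
    (2:ℝ) ^ ((k:ℝ) / 4) ≤ 5 * (k:ℝ) ^ 2 * Module.finrank ℚ (Zw k k) := by
  have h := main_nat k hk
  refine le_of_pow_le_pow_left₀ (n := 4) (by norm_num) (by positivity) ?_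
  rw [← Real.rpow_natCast, ← Real.rpow_mul (by norm_num)]
  rw [show (k:ℝ) / 4 * (4:ℕ) = k by push_cast; ring, Real.rpow_natCast]
  exact_mod_cast h

end Pool.Agent.MP_807c24_nt.H28
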