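import Pool.Agent.MP_807c24_nt.H28.Defs

/-! Analytic interface statements. -/

namespace Pool.Agent.MP_807c24_nt.H28

open Finset

/-- moments of a multiple polylogarithm -/
noncomputable def Iw (M : ℕ) (w : List Bool) : ℝ := ∫ s in (0:ℝ)..1, s ^ M * Li w s

/-- Derivatives of bounded power series. -/
def SerStmt : Prop :=
  ∀ (c : ℕ → ℝ) (C : ℝ), (∀ k, |c k| ≤ C) →
    (∀ k, |op0 c k| ≤ C) ∧ (∀ k, |op1 c k| ≤ C) ∧
    ∀ s ∈ Set.Ioo (0:ℝ) 1, Summable (fun k => |c k * s ^ k|) ∧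
      HasDerivAt (ser (op0 c)) ((ser c s - c 0) / s) s ∧
      HasDerivAt (ser (op1 c)) (ser c s / (1 - s)) s

/-- Basic facts on multiple polylogarithms. -/
def LiStmt : Prop :=
  (∀ w k, 0 ≤ coef w k ∧ coef w k ≤ 1) ∧
  (∀ u v w, good u → good v → w ∈ sh u v →
    good w ∧ w.length = u.length + v.length ∧ dep w = dep u + dep v) ∧
  (∀ u v, (sh u v).length ≤ 2 ^ (u.length + v.length)) ∧
  (∀ u v, good u → good v → ∀ s ∈ Set.Ioo (0:ℝ) 1,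
    Li u s * Li v s = ((sh u v).map (fun w => Li w s)).sum) ∧
  (∀ u v, good u → good v → u.head? ≠ some true → v.head? ≠ some true →
    zx u * zx v = ((sh u v).map zx).sum ∧ ∀ w ∈ sh u v, w.head? ≠ some true) ∧
  (∀ w, good w → w.head? ≠ some true → 0 < zx w) ∧
  (∀ w, IntervalIntegrable (Li w) MeasureTheory.volume 0 1) ∧
  (∀ M : ℕ, ((M : ℝ) + 1) * Iw M [] = zx []) ∧
  (∀ (M : ℕ) w, good (false :: w) →
    ((M : ℝ) + 1) * Iw M (false :: w) = zx (false :: w) - Iw M w) ∧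
  (∀ (M : ℕ) w, good w → ((M : ℝ) + 1) * Iw M (true :: w) = ∑ l ∈ range (M + 1), Iw l w)

/-- Existence of an integer combination with tiny moments. -/
def SmallStmt : Prop :=
  ∀ (U : Finset (List Bool)) (r : ℕ), (∀ w ∈ U, good w ∧ dep w ≤ r) →
    ∃ C : ℝ, 0 < C ∧ ∀ n B M : ℕ, 2 ^ ((r + 2) * M ^ 2) < (B + 1) ^ (U.card * (n + 1)) →
      ∃ c : List Bool → ℕ → ℤ, (∃ u ∈ U, ∃ i ≤ n, c u i ≠ 0) ∧ (∀ u i, |c u i| ≤ B) ∧
        ∀ t ∈ U, ∀ m : ℕ,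
          |∑ u ∈ U, ∑ i ∈ range (n + 1), (c u i : ℝ) * ((sh u t).map (Iw (m + i))).sum|
            ≤ C * (n + 1) * 2 ^ n * B / 2 ^ M

end Pool.Agent.MP_807c24_nt.H28
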