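import Mathlib

/-! Unipotent connections on the line minus `0,1`: constant subspaces. -/

namespace Pool.Agent.MP_807c24_nt.H28

open Polynomial Finset Matrix

noncomputable section

def th (p : ℝ[X]) : ℝ[X] := X * (1 - X) * derivative p

def om : Bool → ℝ[X]
  | false => 1 - X
  | true => X

lemma th_add (p q : ℝ[X]) : th (p + q) = th p + th q := by simp [th]; ring

lemma th_mul (p q : ℝ[X]) : th (p * q) = th p * q + p * th q := by
  simp [th, derivative_mul]; ring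

lemma th_C (a : ℝ) : th (C a) = 0 := by simp [th]

lemma th_zero : th 0 = 0 := by simp [th]

lemma th_sum {ι : Type*} (s : Finset ι) (f : ι → ℝ[X]) :
    th (∑ i ∈ s, f i) = ∑ i ∈ s, th (f i) := by
  simp [th, Finset.mul_sum]

lemma wr_fac (z : ℝ) (j k : ℕ) (p0 d0 : ℝ[X]) :
    ((X - C z) ^ k * d0) * ((X - C z) * derivative ((X - C z) ^ j * p0)) -
      ((X - C z) * derivative ((X - C z) ^ k * d0)) * ((X - C z) ^ j * p0) =
    (X - C z) ^ (j + k) * ((C (j:ℝ) - C (k:ℝ)) * d0 * p0 +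
      (X - C z) * (d0 * derivative p0 - derivative d0 * p0)) := by
  have h : ∀ (m : ℕ) (q : ℝ[X]), (X - C z) * derivative ((X - C z) ^ m * q) =
      (X - C z) ^ m * (C (m:ℝ) * q + (X - C z) * derivative q) := by
    intro m q
    rcases m with _ | m
    · simp
    · rw [derivative_mul, derivative_X_sub_C_pow]
      simp only [Nat.add_sub_cancel, Nat.cast_add, Nat.cast_one, map_add, map_natCast, map_one]
      ring
  rw [h, h, pow_add]; ring

lemma res_zero (z : ℝ) (g d p e : ℝ[X]) (hd : d ≠ 0) (hg : g.eval z ≠ 0)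
    (h : g * (d * ((X - C z) * derivative p) - ((X - C z) * derivative d) * p) = d ^ 2 * e) :
    e.eval z = 0 := by
  by_cases hp : p = 0
  · subst hp
    have : d ^ 2 * e = 0 := by rw [← h]; simp
    have : e = 0 := by simpa [hd] using this
    simp [this]
  obtain ⟨d0, hd0, hd1⟩ := exists_eq_pow_rootMultiplicity_mul_and_not_dvd d hd z
  obtain ⟨p0, hp0, hp1⟩ := exists_eq_pow_rootMultiplicity_mul_and_not_dvd p hp z
  generalize rootMultiplicity z d = k at hd0
  generalize rootMultiplicity z p = j at hp0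
  rw [dvd_iff_isRoot, IsRoot.def] at hd1 hp1
  subst hd0 hp0
  rw [wr_fac] at h
  have hY : ∀ m : ℕ, ((X - C z : ℝ[X])) ^ m ≠ 0 := fun m => pow_ne_zero _ (X_sub_C_ne_zero z)
  rcases le_or_gt k j with hjk | hjk
  · obtain ⟨s, rfl⟩ := Nat.exists_eq_add_of_le hjk
    have h2 : g * ((X - C z) ^ s * ((C ((k + s : ℕ):ℝ) - C (k:ℝ)) * d0 * p0 +
      (X - C z) * (d0 * derivative p0 - derivative d0 * p0))) = d0 ^ 2 * e := by
      apply mul_left_cancel₀ (hY (2 * k))
      rw [show k + s + k = 2 * k + s by ring, pow_add] at h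
      linear_combination h
    have h3 := congrArg (eval z) h2
    rcases s with _ | s
    · simpa [hd1] using h3
    · simpa [hd1] using h3
  · obtain ⟨s, rfl⟩ := Nat.exists_eq_add_of_lt hjk
    have h2 : g * ((C (j:ℝ) - C ((j + s + 1 : ℕ):ℝ)) * d0 * p0 +
      (X - C z) * (d0 * derivative p0 - derivative d0 * p0)) =
        (X - C z) ^ (s + 1) * d0 ^ 2 * e := by
      apply mul_left_cancel₀ (hY (j + (j + s + 1)))
      linear_combination h
    have h3 := congrArg (eval z) h2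
    exfalso
    simp [hd1, hp1, hg] at h3
    linarith [(Nat.cast_nonneg s : (0:ℝ) ≤ s)]

lemma mult_eq (d q : ℝ[X]) (hd : d ≠ 0) (hq : q ≠ 0)
    (h : d * derivative q = derivative d * q) : rootMultiplicity 0 q = rootMultiplicity 0 d := by
  obtain ⟨d0, hd0, hd1⟩ := exists_eq_pow_rootMultiplicity_mul_and_not_dvd d hd 0
  obtain ⟨p0, hp0, hp1⟩ := exists_eq_pow_rootMultiplicity_mul_and_not_dvd q hq 0
  generalize rootMultiplicity 0 d = k at hd0
  generalize rootMultiplicity 0 q = j at hp0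
  rw [dvd_iff_isRoot, IsRoot.def] at hd1 hp1
  subst hd0 hp0
  have h1 := wr_fac 0 j k p0 d0
  have h2 : (X - C (0:ℝ)) ^ (j + k) * ((C (j:ℝ) - C (k:ℝ)) * d0 * p0 +
      (X - C 0) * (d0 * derivative p0 - derivative d0 * p0)) = 0 := by
    rw [← h1]; linear_combination (X - C (0:ℝ)) * h
  have h3 := (mul_eq_zero.1 h2).resolve_left (pow_ne_zero _ (X_sub_C_ne_zero 0))
  have h4 := congrArg (eval 0) h3
  simp only [eval_add, eval_mul, eval_sub, eval_C, eval_X, sub_self, zero_mul, add_zero,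
    eval_zero, mul_eq_zero, hd1, hp1, or_false] at h4
  exact_mod_cast sub_eq_zero.1 h4

lemma wr_zero (d p : ℝ[X]) (hd : d ≠ 0) (h : d * derivative p = derivative d * p) :
    ∃ c : ℝ, p = C c * d := by
  by_cases hp : p = 0
  · exact ⟨0, by simp [hp]⟩
  have hm := mult_eq d p hd hp h
  obtain ⟨d0, hd0, hd1⟩ := exists_eq_pow_rootMultiplicity_mul_and_not_dvd d hd 0
  obtain ⟨p0, hp0, -⟩ := exists_eq_pow_rootMultiplicity_mul_and_not_dvd p hp 0
  rw [hm] at hp0
  rw [dvd_iff_isRoot, IsRoot.def] at hd1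
  refine ⟨p0.eval 0 / d0.eval 0, ?_⟩
  by_contra hne
  have hq : p - C (p0.eval 0 / d0.eval 0) * d ≠ 0 := sub_ne_zero.2 hne
  have h2 := mult_eq d _ hd hq (by
    simp only [derivative_sub, derivative_mul, derivative_C, zero_mul, zero_add]
    linear_combination h)
  have h3 : (X - C (0:ℝ)) ∣ p0 - C (p0.eval 0 / d0.eval 0) * d0 := by
    rw [dvd_iff_isRoot, IsRoot.def]; simp; field_simp; ring
  obtain ⟨t, ht⟩ := h3
  have h4 : (X - C (0:ℝ)) ^ (rootMultiplicity 0 d + 1) ∣ p - C (p0.eval 0 / d0.eval 0) * d := by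
    refine ⟨t, ?_⟩
    generalize rootMultiplicity 0 d = k at *
    rw [pow_succ, mul_assoc, ← ht]
    linear_combination hp0 - C (p0.eval 0 / d0.eval 0) * hd0
  have := (le_rootMultiplicity_iff hq).2 h4
  omega

lemma no_log (d p : ℝ[X]) (a b : ℝ) (hd : d ≠ 0)
    (h : d * th p - th d * p = d ^ 2 * ((1 - X) * C a + X * C b)) :
    a = 0 ∧ b = 0 ∧ ∃ c : ℝ, p = C c * d := by
  have ha := res_zero 0 (1 - X) d p ((1 - X) * C a + X * C b) hd (by simp)
    (by rw [← h]; simp [th]; ring)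
  have hb := res_zero 1 (-X) d p ((1 - X) * C a + X * C b) hd (by simp)
    (by rw [← h]; simp [th]; ring)
  simp at ha hb
  subst ha hb
  refine ⟨rfl, rfl, wr_zero d p hd ?_⟩
  have h1 : (X * (1 - X) : ℝ[X]) ≠ 0 := by
    refine mul_ne_zero X_ne_zero ?_
    intro h0
    have := congrArg (eval 0) h0
    simp at this
  apply mul_left_cancel₀ h1
  simp only [th, map_zero, mul_zero, add_zero] at h
  linear_combination h

variable {ι : Type} [Fintype ι] (A : Bool → Matrix ι ι ℝ)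

/-- pairing of a constant row with a polynomial column -/
def pr (l : ι → ℝ) (y : ι → ℝ[X]) : ℝ[X] := ∑ i, C (l i) * y i

def dot (r y : ι → ℝ[X]) : ℝ[X] := ∑ i, r i * y i

def nxt (r : ι → ℝ[X]) : ι → ℝ[X] := fun j =>
  th (r j) + ∑ b, om b * ∑ i, r i * C (A b i j)

def dn (y : ι → ℝ[X]) : ι → ℝ[X] := fun i =>
  th (y i) - ∑ b, om b * ∑ j, C (A b i j) * y j

lemma th_dot (r y : ι → ℝ[X]) : th (dot r y) = dot (nxt A r) y + dot r (dn A y) := by
  simp only [dot, nxt, dn, th_sum, th_mul, add_mul, mul_sub, sum_add_distrib, sum_sub_distrib,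
    Fintype.sum_bool, mul_add, Finset.mul_sum, Finset.sum_mul]
  have h : ∀ b, ∑ j, ∑ i, om b * (r i * C (A b i j)) * y j =
      ∑ i, ∑ j, r i * (om b * (C (A b i j) * y j)) := by
    intro b
    rw [sum_comm]
    exact sum_congr rfl fun i _ => sum_congr rfl fun j _ => by ring
  rw [h, h]; ring

lemma pr_vecMul (l : ι → ℝ) (B : Matrix ι ι ℝ) (y : ι → ℝ[X]) :
    pr (l ᵥ* B) y = ∑ i, C (l i) * ∑ j, C (B i j) * y j := by
  simp only [pr, vecMul, dotProduct, map_sum, map_mul, Finset.sum_mul, Finset.mul_sum]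
  rw [sum_comm]
  exact sum_congr rfl fun i _ => sum_congr rfl fun j _ => by ring

lemma pr_dn (l : ι → ℝ) (y : ι → ℝ[X]) :
    pr l (dn A y) = th (pr l y) - ((1 - X) * pr (l ᵥ* A false) y + X * pr (l ᵥ* A true) y) := by
  rw [pr_vecMul, pr_vecMul]
  simp only [pr, dn, th_sum, th_mul, th_C, zero_mul, zero_add, mul_sub, sum_sub_distrib,
    Fintype.sum_bool, om, mul_add, sum_add_distrib]
  rw [Finset.mul_sum, Finset.mul_sum, add_comm]
  congr 2
  · exact sum_congr rfl fun i _ => by ring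
  · exact sum_congr rfl fun i _ => by ring

/-- `pr · y` as a linear map -/
def prL (y : ι → ℝ[X]) : (ι → ℝ) →ₗ[ℝ] ℝ[X] where
  toFun l := pr l y
  map_add' l m := by simp [pr, add_mul, sum_add_distrib]
  map_smul' a l := by
    simp [pr, Finset.smul_sum, smul_eq_C_mul, mul_assoc]

lemma pr_comb (l : ι → ℝ) (a b : ℝ[X]) (y z : ι → ℝ[X]) :
    pr l (a • y - b • z) = a * pr l y - b * pr l z := by
  simp only [pr, Pi.sub_apply, Pi.smul_apply, smul_eq_mul, Finset.mul_sum, ← sum_sub_distrib]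
  exact sum_congr rfl fun i _ => by ring

lemma dot_eq_sum (r y : ι → ℝ[X]) (n : ℕ) (hn : ∀ i, (r i).natDegree < n) :
    dot r y = ∑ m ∈ range n, X ^ m * pr (fun i => (r i).coeff m) y := by
  simp only [dot, pr, Finset.mul_sum]
  rw [sum_comm]
  refine sum_congr rfl fun i _ => ?_
  conv_lhs => rw [as_sum_range' (r i) n (hn i), Finset.sum_mul]
  exact sum_congr rfl fun m _ => by rw [← C_mul_X_pow_eq_monomial]; ring

theorem xi (lev : ι → ℕ) (hlev : ∀ b i j, A b i j ≠ 0 → lev j < lev i)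
    (N : Submodule ℝ[X] (ι → ℝ[X])) (hN : ∀ y ∈ N, dn A y ∈ N) (r : ι → ℝ[X])
    (hr : ∀ y ∈ N, dot r y = 0) :
    ∃ S : Submodule ℝ (ι → ℝ), (∀ m, (fun i => (r i).coeff m) ∈ S) ∧
      (∀ l ∈ S, ∀ b, l ᵥ* A b ∈ S) ∧ ∀ l ∈ S, ∀ y ∈ N, pr l y = 0 := by
  classical
  set 𝒮 : Set (Submodule ℝ (ι → ℝ)) :=
    {S | (∀ m, (fun i => (r i).coeff m) ∈ S) ∧ ∀ l ∈ S, ∀ b, l ᵥ* A b ∈ S} with h𝒮
  have hS1 : ∀ m, (fun i => (r i).coeff m) ∈ sInf 𝒮 := fun m =>
    Submodule.mem_sInf.2 fun S hS => hS.1 m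
  have hS2 : ∀ l ∈ sInf 𝒮, ∀ b, l ᵥ* A b ∈ sInf 𝒮 := fun l hl b =>
    Submodule.mem_sInf.2 fun S hS => hS.2 l (Submodule.mem_sInf.1 hl S hS) b
  have hS3 : ∀ S ∈ 𝒮, sInf 𝒮 ≤ S := fun S hS => sInf_le hS
  generalize sInf 𝒮 = S at hS1 hS2 hS3
  refine ⟨S, hS1, hS2, ?_⟩
  by_contra hcon
  push Not at hcon
  obtain ⟨l0, hl0, y0, hy0, hne0⟩ := hcon
  -- level filtration
  let Sup : ℕ → (ι → ℝ) → Prop := fun k l => ∀ i, k ≤ lev i → l i = 0
  have hSup : ∀ k l b, Sup (k + 1) l → Sup k (l ᵥ* A b) := by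
    intro k l b h j hj
    simp only [vecMul, dotProduct]
    refine sum_eq_zero fun i _ => ?_
    by_cases hA : A b i j = 0
    · simp [hA]
    · have := hlev b i j hA
      simp [h i (by omega)]
  have hSup0 : ∀ l, Sup 0 l → l = 0 := fun l h => funext fun i => h i (Nat.zero_le _)
  have hSupT : ∀ l, Sup (univ.sup lev + 1) l := by
    intro l i hi
    have := le_sup (f := lev) (mem_univ i)
    omega
  set PP : Set (Submodule ℝ (ι → ℝ)) := {Ξ | Ξ ≤ S ∧ (∀ l ∈ Ξ, ∀ b, l ᵥ* A b ∈ Ξ) ∧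
    ∃ y ∈ N, (∀ l ∈ Ξ, pr l y = 0) ∧ ∃ l ∈ S, pr l y ≠ 0} with hPP
  have hbot : (⊥ : Submodule ℝ (ι → ℝ)) ∈ PP := by
    refine ⟨bot_le, ?_, y0, hy0, ?_, l0, hl0, hne0⟩
    · intro l hl b
      rw [Submodule.mem_bot] at hl
      simp [hl]
    · intro l hl
      rw [Submodule.mem_bot] at hl
      simp [hl, pr]
  obtain ⟨Ξ, ⟨hΞS, hΞst, y, hy, hkill, l1, hl1, hne1⟩, hmax⟩ :=
    WellFounded.has_min (wellFounded_gt (α := Submodule ℝ (ι → ℝ))) PP ⟨⊥, hbot⟩
  have hex : ∃ k, ∃ l ∈ S, l ∉ Ξ ∧ Sup k l :=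
    ⟨_, l1, hl1, fun h => hne1 (hkill _ h), hSupT l1⟩
  obtain ⟨lam, hlamS, hlamΞ, hlamA⟩ : ∃ l ∈ S, l ∉ Ξ ∧ ∀ b, l ᵥ* A b ∈ Ξ := by
    obtain ⟨l, hl, hl', hs⟩ := Nat.find_spec hex
    refine ⟨l, hl, hl', fun b => ?_⟩
    rcases hk : Nat.find hex with _ | k
    · rw [hk] at hs
      exact absurd (hSup0 l hs ▸ Ξ.zero_mem) hl'
    · rw [hk] at hs
      by_contra hb
      exact Nat.find_min hex (m := k) (by omega) ⟨_, hS2 l hl b, hb, hSup k l b hs⟩
  set Ξ' := Ξ ⊔ Submodule.span ℝ {lam} with hΞ'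
  have hlt : Ξ < Ξ' := by
    refine lt_of_le_of_ne le_sup_left fun h => hlamΞ ?_
    rw [h]; exact Submodule.mem_sup_right (Submodule.mem_span_singleton_self _)
  have hΞ'S : Ξ' ≤ S := sup_le hΞS ((Submodule.span_singleton_le_iff_mem _ _).2 hlamS)
  have hdec : ∀ l ∈ Ξ', ∃ x ∈ Ξ, ∃ a : ℝ, l = x + a • lam := by
    intro l hl
    obtain ⟨x, hx, z, hz, rfl⟩ := Submodule.mem_sup.1 hl
    obtain ⟨a, rfl⟩ := Submodule.mem_span_singleton.1 hz
    exact ⟨x, hx, a, rfl⟩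
  have hΞ'st : ∀ l ∈ Ξ', ∀ b, l ᵥ* A b ∈ Ξ' := by
    intro l hl b
    obtain ⟨x, hx, a, rfl⟩ := hdec l hl
    rw [add_vecMul, smul_vecMul]
    exact Submodule.mem_sup_left (Ξ.add_mem (hΞst x hx b) (Ξ.smul_mem a (hlamA b)))
  have hkey : ∀ z ∈ N, (∀ l ∈ Ξ, pr l z = 0) → pr lam z = 0 → ∀ l ∈ S, pr l z = 0 := by
    intro z hz h1 h2 l hl
    by_contra hne
    refine hmax Ξ' ⟨hΞ'S, hΞ'st, z, hz, ?_, l, hl, hne⟩ hlt
    intro l' hl'
    obtain ⟨x, hx, a, rfl⟩ := hdec l' hl'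
    have : prL z (x + a • lam) = prL z x + a • prL z lam := by simp
    exact this.trans (by simp [prL, h1 x hx, h2])
  have hd : pr lam y ≠ 0 := fun h => hne1 (hkey y hy hkill h l1 hl1)
  set d := pr lam y with hdd
  have hy1 : ∀ l ∈ S, pr l (d • dn A y - th d • y) = 0 := by
    refine hkey _ (N.sub_mem (N.smul_mem _ (hN y hy)) (N.smul_mem _ hy)) ?_ ?_
    · intro l hl
      rw [pr_comb, pr_dn, hkill l hl, hkill _ (hΞst l hl false), hkill _ (hΞst l hl true)]
      simp [th_zero]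
    · rw [pr_comb, pr_dn, hkill _ (hlamA false), hkill _ (hlamA true), ← hdd]
      ring
  have hind : ∀ k, ∀ l ∈ S, Sup k l →
      (∃ c : ℝ, pr l y = C c * d) ∧ ∀ b, pr (l ᵥ* A b) y = 0 := by
    intro k
    induction k with
    | zero =>
      intro l _ hs
      rw [hSup0 l hs]
      exact ⟨⟨0, by simp [pr]⟩, fun b => by simp [pr]⟩
    | succ k ih =>
      intro l hl hs
      obtain ⟨a, ha⟩ := (ih _ (hS2 l hl false) (hSup k l false hs)).1
      obtain ⟨b, hb⟩ := (ih _ (hS2 l hl true) (hSup k l true hs)).1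
      have h1 := hy1 l hl
      rw [pr_comb, pr_dn, ha, hb] at h1
      obtain ⟨ha0, hb0, hc⟩ := no_log d (pr l y) a b hd (by linear_combination h1)
      refine ⟨hc, fun b' => ?_⟩
      cases b'
      · simp [ha, ha0]
      · simp [hb, hb0]
  have hall := fun l hl => hind _ l hl (hSupT l)
  -- the coefficient rows kill `y`
  have hrow : ∀ m, pr (fun i => (r i).coeff m) y = 0 := by
    choose c hc using fun m => (hall _ (hS1 m)).1
    set n := univ.sup (fun i => (r i).natDegree) + 1 with hn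
    have hn' : ∀ i, (r i).natDegree < n := fun i => by
      have := le_sup (f := fun i => (r i).natDegree) (mem_univ i)
      omega
    have h1 := hr y hy
    rw [dot_eq_sum r y n hn'] at h1
    have h2 : (∑ m ∈ range n, C (c m) * X ^ m) * d = 0 := by
      rw [← h1, Finset.sum_mul]
      exact sum_congr rfl fun m _ => by rw [hc]; ring
    have h3 := (mul_eq_zero.1 h2).resolve_right hd
    intro m
    by_cases hm : m < n
    · have h4 := congrArg (fun p => p.coeff m) h3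
      simp only [finsetSum_coeff, coeff_C_mul_X_pow, coeff_zero] at h4
      rw [sum_ite_eq] at h4
      simp only [mem_range, hm, if_true] at h4
      rw [hc, h4]; simp
    · have : (fun i => (r i).coeff m) = 0 := funext fun i =>
        coeff_eq_zero_of_natDegree_lt (by have := hn' i; omega)
      rw [this]; simp [pr]
  have hfin : S ⊓ LinearMap.ker (prL y) ∈ 𝒮 := by
    refine ⟨fun m => ⟨hS1 m, hrow m⟩, fun l hl b => ⟨hS2 l hl.1 b, (hall l hl.1).2 b⟩⟩
  exact hne1 (hS3 _ hfin hl1).2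

end

end Pool.Agent.MP_807c24_nt.H28
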