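import Pool.Agent.MP_807c24_nt.H28.Act

/-! The zero estimate. -/

namespace Pool.Agent.MP_807c24_nt.H28

open Polynomial Finset Matrix

noncomputable section

variable (U : Finset (List Bool)) (x : List Bool → ℝ) (I : ℕ → List Bool → ℝ)

def Amat (b : Bool) : Matrix (U ⊕ U) (U ⊕ U) ℝ
  | Sum.inl u, Sum.inl v => if u.1 = b :: v.1 then 1 else 0
  | Sum.inl u, Sum.inr t => xs x u.1 t.1
  | Sum.inr _, Sum.inl _ => 0
  | Sum.inr v, Sum.inr t => if t.1 = b :: v.1 then -1 else 0

/-- extension by zero -/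
def ext {M : Type} [Zero M] (f : U → M) (w : List Bool) : M :=
  if h : w ∈ U then f ⟨w, h⟩ else 0

lemma ext_coe {M : Type} [Zero M] (f : U → M) (u : U) : ext U f u.1 = f u := by
  simp [ext, u.2]

lemma sum_ite_ext {M : Type} [AddCommMonoid M] (f : U → M) (w : List Bool) :
    ∑ u : U, (if u.1 = w then f u else 0) = ext U f w := by
  unfold ext
  split_ifs with h
  · rw [Finset.sum_eq_single ⟨w, h⟩]
    · simp
    · intro v _ hv
      rw [if_neg]
      exact fun h' => hv (Subtype.ext h')
    · simp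
  · refine sum_eq_zero fun v _ => ?_
    rw [if_neg]
    exact fun h' => h (h' ▸ v.2)

def Sh (r : U ⊕ U → ℝ[X]) (w : List Bool) : ℤ → ℝ :=
  ∑ u : U, act (r (Sum.inl u)) (GS I u.1 w) + act (ext U (fun t => r (Sum.inr t)) w) one

lemma act_tl (p : ℝ[X]) (F : Bool → List Bool → ℤ → ℝ) (u : List Bool) :
    act p (tl F u) = tl (fun a v => act p (F a v)) u := by
  cases u <;> simp [tl]

lemma Sh_nxt (hU : ∀ b w, b :: w ∈ U → w ∈ U) (hg : ∀ w ∈ U, good w)
    (h0 : ∀ M : ℕ, ((M : ℝ) + 1) * I M [] = x []) (hx1 : ∀ w, x (true :: w) = 0)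
    (hf : ∀ (M : ℕ) w, good (false :: w) →
      ((M : ℝ) + 1) * I M (false :: w) = x (false :: w) - I M w)
    (ht : ∀ (M : ℕ) w, good w → ((M : ℝ) + 1) * I M (true :: w) = ∑ l ∈ range (M + 1), I l w)
    (r : U ⊕ U → ℝ[X]) (t : List Bool) (htU : t ∈ U) :
    Sh U I (nxt (Amat U x) r) t =
      thL (Sh U I r t) - tl (fun a v => act (om a) (Sh U I r v)) t := by
  have hone : thL one = 0 := by
    funext k
    rw [thL_apply]
    by_cases h : k = 0
    · simp [one, h]
    · by_cases h' : k - 1 = 0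
      · have : (k:ℝ) - 1 = 0 := by exact_mod_cast h'
        simp [one, h, this]
      · simp [one, h, h']
  have e1 : ∑ v : U, act (nxt (Amat U x) r (Sum.inl v)) (GS I v.1 t) =
      ∑ u : U, act (th (r (Sum.inl u))) (GS I u.1 t) +
      ∑ u : U, act (r (Sum.inl u)) (tl (fun a v => act (om a) (GS I v t)) u.1) := by
    simp only [nxt, act_add, sum_add_distrib, Fintype.sum_sum_type, Amat, map_zero, mul_zero,
      sum_const_zero, add_zero]
    congr 1
    simp only [Finset.mul_sum, act_sum]
    have : ∀ u : U, act (r (Sum.inl u)) (tl (fun a v => act (om a) (GS I v t)) u.1) =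
        ∑ v : U, ∑ b, act (om b * (r (Sum.inl u) * C (if u.1 = b :: v.1 then 1 else 0)))
          (GS I v.1 t) := by
      intro u
      rw [← sum_ite_cons U hU _ u.1 u.2, sum_comm, map_sum]
      refine sum_congr rfl fun v _ => ?_
      rw [map_sum]
      refine sum_congr rfl fun b _ => ?_
      split_ifs
      · simp only [map_one, mul_one]
        rw [mul_comm, act_mul]
      · simp [act_zero]
    simp only [this]
    rw [sum_comm (s := univ) (t := univ) (f := fun (u : U) (v : U) => ∑ b, act (om b *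
      (r (Sum.inl u) * C (if u.1 = b :: v.1 then 1 else 0))) (GS I v.1 t))]
    exact sum_congr rfl fun v _ => sum_comm
  have e2 : nxt (Amat U x) r (Sum.inr ⟨t, htU⟩) = th (r (Sum.inr ⟨t, htU⟩)) +
      ∑ u : U, r (Sum.inl u) * C (xs x u.1 t) -
      tl (fun a v => om a * ext U (fun t => r (Sum.inr t)) v) t := by
    simp only [nxt, Fintype.sum_sum_type, Amat, mul_add, sum_add_distrib]
    rw [← sum_ite_cons U hU _ t htU, add_sub_assoc]
    congr 1
    rw [sub_eq_add_neg]
    congr 1
    · simp only [Fintype.sum_bool, om]; ring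
    · rw [← sum_neg_distrib]
      refine sum_congr rfl fun b _ => ?_
      rw [Finset.mul_sum, ← sum_neg_distrib]
      refine sum_congr rfl fun v _ => ?_
      split_ifs
      · simp [ext_coe]
      · simp
  have e3 : ∀ f : U → ℝ[X], ext U f t = f ⟨t, htU⟩ := fun f => ext_coe U f ⟨t, htU⟩
  have e4 : tl (fun a v => act (om a) (Sh U I r v)) t =
      ∑ u : U, act (r (Sum.inl u)) (tl (fun a v => act (om a) (GS I u.1 v)) t) +
        act (tl (fun a v => om a * ext U (fun t => r (Sum.inr t)) v) t) one := by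
    rcases t with _ | ⟨b, v⟩
    · simp [tl, act_zero]
    · simp only [tl, Sh, map_add, map_sum, act_mul]
      congr 1
      exact sum_congr rfl fun u _ => by rw [← act_mul, mul_comm, act_mul]
  rw [e4]
  simp only [Sh]
  rw [e1, e3, e3, e2, map_add, map_sum]
  simp only [thL_act, hone, map_zero, add_zero]
  simp only [thL_GS x I h0 hx1 hf ht _ t (hg _ (Subtype.prop _)) (hg t htU), map_add,
    sum_add_distrib, act_sub, act_add, act_sum, act_mul, act_C]
  abel

lemma Sh_sum {μ : ℕ} (B : Fin μ → ℝ[X]) (r : Fin μ → U ⊕ U → ℝ[X]) (t : U) :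
    ∑ i, act (B i) (Sh U I (r i) t.1) =
      ∑ u : U, act (∑ i, B i * r i (Sum.inl u)) (GS I u.1 t.1) +
        act (∑ i, B i * r i (Sum.inr t)) one := by
  simp only [Sh, ext_coe, map_add, map_sum, sum_add_distrib, act_sum, act_mul]
  rw [sum_comm]

lemma vec_inl (l : U ⊕ U → ℝ) (b : Bool) (v : U) :
    (l ᵥ* Amat U x b) (Sum.inl v) = ext U (fun u => l (Sum.inl u)) (b :: v.1) := by
  rw [← sum_ite_ext]
  simp [vecMul, dotProduct, Fintype.sum_sum_type, Amat]

lemma vec_inr (l : U ⊕ U → ℝ) (b : Bool) (t : U) :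
    (l ᵥ* Amat U x b) (Sum.inr t) = ∑ u : U, l (Sum.inl u) * xs x u.1 t.1 -
      ∑ v : U, if t.1 = b :: v.1 then l (Sum.inr v) else 0 := by
  simp only [vecMul, dotProduct, Fintype.sum_sum_type, Amat, sub_eq_add_neg, ← sum_neg_distrib]
  congr 1
  exact sum_congr rfl fun v _ => by split_ifs <;> simp

lemma kill_T (hnil : [] ∈ U) (hU : ∀ b w, b :: w ∈ U → w ∈ U) (hx : x [] ≠ 0)
    (S : Submodule ℝ (U ⊕ U → ℝ)) (hS : ∀ l ∈ S, ∀ b, l ᵥ* Amat U x b ∈ S)
    (hne : ∃ l ∈ S, ∃ u, l (Sum.inl u) ≠ 0) (y : U ⊕ U → ℝ[X]) (hy : ∀ l ∈ S, pr l y = 0)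
    (t : U) : y (Sum.inr t) = 0 := by
  classical
  -- step 1: strip letters
  have h1 : ∀ (v : List Bool), ∀ l ∈ S, ∃ l' ∈ S, ∀ w,
      ext U (fun u => l' (Sum.inl u)) w = ext U (fun u => l (Sum.inl u)) (v ++ w) := by
    intro v
    induction v with
    | nil => exact fun l hl => ⟨l, hl, fun w => rfl⟩
    | cons a v ih =>
      intro l hl
      obtain ⟨l', hl', h⟩ := ih _ (hS l hl a)
      refine ⟨l', hl', fun w => ?_⟩
      rw [h w]
      by_cases hw : v ++ w ∈ U
      · exact (ext_coe U _ ⟨_, hw⟩).trans (vec_inl U x l a ⟨_, hw⟩)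
      · have : a :: (v ++ w) ∉ U := fun h => hw (hU _ _ h)
        simp [ext, hw, this]
  obtain ⟨l, hl, hu⟩ := hne
  obtain ⟨u, hu1, hu2⟩ := Finset.exists_max_image (univ.filter fun u : U => l (Sum.inl u) ≠ 0)
    (fun u => u.1.length) (by
      obtain ⟨u, hu⟩ := hu
      exact ⟨u, by simpa using hu⟩)
  simp only [mem_filter, mem_univ, true_and] at hu1 hu2
  obtain ⟨l', hl', h2⟩ := h1 u.1 l hl
  have h3 : ∀ w, w ≠ [] → ext U (fun u => l' (Sum.inl u)) w = 0 := by
    intro w hw
    rw [h2]
    unfold ext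
    split_ifs with h
    · by_contra hc
      have := hu2 _ hc
      simp only [List.length_append] at this
      exact hw (List.length_eq_zero_iff.1 (by omega))
    · rfl
  have h4 : l' (Sum.inl ⟨[], hnil⟩) ≠ 0 := by
    have := h2 []
    rw [List.append_nil, ext_coe U _ u] at this
    rw [← ext_coe U (fun u => l' (Sum.inl u)) ⟨[], hnil⟩, this]
    exact hu1
  -- step 2 and 3
  have h5 : ∀ v (hv : v ∈ U), ∃ m ∈ S, (∀ u, m (Sum.inl u) = 0) ∧ m (Sum.inr ⟨v, hv⟩) ≠ 0 ∧
      ∀ t : U, t.1.length ≤ v.length → t.1 ≠ v → m (Sum.inr t) = 0 := by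
    intro v
    induction v with
    | nil =>
      intro hv
      refine ⟨_, hS l' hl' true, fun u => ?_, ?_, ?_⟩
      · rw [vec_inl, h3 _ (by simp)]
      · rw [vec_inr, Finset.sum_eq_single ⟨[], hnil⟩]
        · simp [xs, sh, h4, hx]
        · intro w _ hw
          rw [← ext_coe U (fun u => l' (Sum.inl u)) w, h3 _ (fun h => hw (Subtype.ext h)),
            zero_mul]
        · simp
      · intro t ht hne
        exact absurd (List.length_eq_zero_iff.1 (by simpa using ht)) hne
    | cons a v ih =>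
      intro hv
      obtain ⟨m, hm, hm1, hm2, hm3⟩ := ih (hU _ _ hv)
      refine ⟨_, hS m hm a, fun u => ?_, ?_, ?_⟩
      · rw [vec_inl]; simp [ext, hm1]
      · rw [vec_inr]
        simp only [hm1, zero_mul, sum_const_zero, zero_sub, List.cons.injEq, true_and,
          neg_ne_zero]
        rw [Finset.sum_eq_single ⟨v, hU _ _ hv⟩]
        · simpa using hm2
        · intro w _ hw
          rw [if_neg]
          exact fun h => hw (Subtype.ext h.symm)
        · simp
      · intro t ht hne
        rw [vec_inr]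
        simp only [hm1, zero_mul, sum_const_zero, zero_sub, neg_eq_zero]
        refine sum_eq_zero fun w _ => ?_
        split_ifs with h
        · refine hm3 w ?_ ?_
          · rw [h] at ht; simpa using ht
          · intro h'
            exact hne (by rw [h, h'])
        · rfl
  -- step 4
  by_contra hc
  obtain ⟨v, hv1, hv2⟩ := Finset.exists_max_image (univ.filter fun v : U => y (Sum.inr v) ≠ 0)
    (fun u => u.1.length) ⟨t, by simpa using hc⟩
  simp only [mem_filter, mem_univ, true_and] at hv1 hv2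
  obtain ⟨m, hm, hm1, hm2, hm3⟩ := h5 v.1 v.2
  have h6 := hy m hm
  simp only [pr, Fintype.sum_sum_type, hm1, map_zero, zero_mul, sum_const_zero, zero_add] at h6
  rw [Finset.sum_eq_single v] at h6
  · rcases mul_eq_zero.1 h6 with h | h
    · exact hm2 (C_eq_zero.1 h)
    · exact hv1 h
  · intro w _ hw
    by_cases hyw : y (Sum.inr w) = 0
    · simp [hyw]
    · rw [hm3 w (hv2 w hyw) (fun h => hw (Subtype.ext h))]; simp
  · simp

theorem zeroS : ZeroStmt := by
  intro U hnil hU hg x I hx hx1 h0 hf ht n c hJ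
  classical
  by_contra hcon
  push Not at hcon
  obtain ⟨u0, hu0, i0, hi0, hc0⟩ := hcon
  set P : U → ℝ[X] := fun u => ∑ i ∈ range (n + 1), C (c u.1 i) * X ^ i with hP
  have hPdeg : ∀ (f : ℕ → ℝ), (∑ i ∈ range (n + 1), C (f i) * X ^ i).natDegree ≤ n := fun f =>
    natDegree_sum_le_of_forall_le _ _ fun k hk =>
      (natDegree_C_mul_X_pow_le _ _).trans (by have := mem_range.1 hk; omega)
  have hPco : ∀ (f : ℕ → ℝ) (k : ℕ),
      (∑ i ∈ range (n + 1), C (f i) * X ^ i).coeff k = if k ≤ n then f k else 0 := by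
    intro f k
    simp only [finsetSum_coeff, coeff_C_mul_X_pow]
    rw [sum_ite_eq]
    simp
  set St : U → ℤ → ℝ := fun t => ∑ u : U, act (P u) (GS I u.1 t.1) with hSt
  have hStv : ∀ t k, St t k = ∑ u : U, ∑ i ∈ range (n + 1), c u.1 i * GS I u.1 t.1 (k - i) := by
    intro t k
    simp only [hSt, hP, act_sum, Finset.sum_apply, act_mon]
  set r : U ⊕ U → ℝ[X] := Sum.elim P
    (fun t => ∑ k ∈ range (n + 1), C (-St t k) * X ^ k) with hr
  set e : ℕ := n + 4 * U.card with he
  have hV0 : ∀ t ∈ U, Van e (Sh U I r t) := by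
    intro t htU k hk
    have : Sh U I r t k = St ⟨t, htU⟩ k +
        act (∑ k ∈ range (n + 1), C (-St ⟨t, htU⟩ k) * X ^ k) one k := by
      rw [Sh, ext_coe U _ ⟨t, htU⟩]
      rfl
    rw [this]
    rcases lt_or_ge k 0 with hk0 | hk0
    · rw [act_one_neg _ _ hk0, add_zero, hStv]
      obtain ⟨m, rfl⟩ : ∃ m : ℕ, k = -(m:ℤ) - 1 := ⟨(-k - 1).toNat, by omega⟩
      rw [← hJ t htU m (by omega), ← Finset.sum_coe_sort U]
      refine sum_congr rfl fun u _ => sum_congr rfl fun i _ => ?_
      rw [← GS_neg]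
      congr 2
      push_cast; ring
    · obtain ⟨m, rfl⟩ := Int.eq_ofNat_of_zero_le hk0
      rw [act_one_nat, hPco]
      split_ifs with hm
      · ring
      · rw [add_zero, hStv]
        refine sum_eq_zero fun u _ => sum_eq_zero fun i hi => ?_
        rw [GS_nonneg _ _ _ _ (by have := mem_range.1 hi; omega), mul_zero]
  have hV : ∀ i : ℕ, ∀ t ∈ U, Van ((e:ℤ) - i) (Sh U I ((nxt (Amat U x))^[i] r) t) := by
    intro i
    induction i with
    | zero => simpa using hV0
    | succ i ih =>
      intro t htU k hk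
      rw [Function.iterate_succ_apply', Sh_nxt U x I hU hg h0 hx1 hf ht _ t htU, Pi.sub_apply,
        (ih t htU).thL k (by push_cast at hk; omega)]
      rcases t with _ | ⟨a, v⟩
      · simp [tl]
      · simp only [tl]
        rw [(ih v (hU _ _ htU)).act _ 1 (natDegree_om a) k (by push_cast at hk ⊢; omega)]
        simp
  set L := univ.sup (fun u : U => u.1.length) with hL
  have hLle : ∀ u : U, u.1.length ≤ L := fun u => le_sup (f := fun u : U => u.1.length) (mem_univ u)
  have hpos : 0 < U.card := card_pos.2 ⟨_, hnil⟩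
  obtain ⟨μ, hμ, B, hB, hBU, t, hBt⟩ := rel (Amat U x)
    (Sum.elim (fun u => L + 1 + u.1.length) (fun t => L - t.1.length)) (by
      rintro b (u | u) (v | v) h
      · simp only [Amat, ne_eq, ite_eq_right_iff, not_forall] at h
        simp [h.1]
      · simp only [Sum.elim_inl, Sum.elim_inr]; omega
      · simp [Amat] at h
      · simp only [Amat, ne_eq, ite_eq_right_iff, not_forall] at h
        have := hLle v
        rw [h.1] at this
        simp only [Sum.elim_inr, h.1, List.length_cons] at *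
        omega) r n (by
      rintro (u | t)
      · exact hPdeg _
      · exact hPdeg _) (by
      intro S hS1 hS2 y hy t
      refine kill_T U x hnil hU hx S hS2 ⟨_, hS1 i0, ⟨u0, hu0⟩, ?_⟩ y hy t
      simp only [hr, Sum.elim_inl, hP, hPco, if_pos hi0]
      exact hc0) (n + 2 * U.card) (by
      simp only [Fintype.card_sum, Fintype.card_coe]
      nlinarith)
  simp only [Fintype.card_sum, Fintype.card_coe] at hμ
  apply hBt
  ext k
  have h1 := congrFun (Sh_sum U I B (fun i => (nxt (Amat U x))^[i] r) t) k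
  simp only [hBU, act_zero, sum_const_zero, zero_add, act_one_nat] at h1
  rw [← h1, Finset.sum_apply, coeff_zero]
  refine sum_eq_zero fun i _ => (hV i t.1 t.2).act _ _ (hB i) k ?_
  have := i.2
  push_cast
  omega

end

end Pool.Agent.MP_807c24_nt.H28
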